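import Mathlib
import Pool.Agent.Helper93.RatHev

/-!
# Dependent pairs: definitions
-/

set_option autoImplicit false

namespace Pool.Agent.Helper38.DT

open Polynomial Pool.Agent.Helper93.RatODE

/-- `F / G` is a rational function of degree `d`. -/
structure IsRatD {K : Type} [Field K] (F G : K[X]) (d : ℕ) : Prop where
  cop : IsCoprime F G
  degF : F.natDegree ≤ d
  degG : G.natDegree ≤ d
  top : F.coeff d ≠ 0 ∨ G.coeff d ≠ 0

/-- A finite family of infinite orbits of rational functions, all points being finite. -/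
structure Orb {E S : Type} [Field E] (F G : S → E[X]) (x : S → ℕ → E) : Prop where
  ne : ∀ s j, (G s).eval (x s j) ≠ 0
  step : ∀ s j, x s (j + 1) = (F s).eval (x s j) / (G s).eval (x s j)
  inj : ∀ s, Function.Injective (x s)

/-- `γ` is a symmetry of the family of sequences `x`, inducing `π` on the indices. -/
def Sym {E S : Type} [Field E] (x : S → ℕ → E) (γ : E ≃+* E) (π : Equiv.Perm S) : Prop :=
  ∀ s j, γ (x s j) = x (π s) j

/-- Evaluation of the bihomogeneous form of bidegree `(m, n)` with coefficients `q`. -/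
def bev {K : Type} [Field K] (q : ℕ → ℕ → K) (m n : ℕ) (y0 y1 z0 z1 : K) : K :=
  ∑ a ∈ Finset.range (m + 1), ∑ b ∈ Finset.range (n + 1),
    q a b * y0 ^ a * y1 ^ (m - a) * z0 ^ b * z1 ^ (n - b)

/-- A correspondence between `P¹` and `P¹` (finite over both factors) which is invariant under
`(A / B, U / W)`, where `A / B` has degree `δ` and `U / W` has degree `e`. -/
structure Corr {K : Type} [Field K] (q : ℕ → ℕ → K) (m n : ℕ) (A B : K[X]) (δ : ℕ) (U W : K[X])
    (e : ℕ) : Prop where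
  left : ∀ y0 y1 : K, (y0 ≠ 0 ∨ y1 ≠ 0) → ∃ z0 z1 : K, bev q m n y0 y1 z0 z1 ≠ 0
  right : ∀ z0 z1 : K, (z0 ≠ 0 ∨ z1 ≠ 0) → ∃ y0 y1 : K, bev q m n y0 y1 z0 z1 ≠ 0
  pos : 1 ≤ n
  inv : ∀ y0 y1 z0 z1 : K, bev q m n y0 y1 z0 z1 = 0 →
    bev q m n (hev A δ y0 y1) (hev B δ y0 y1) (hev U e z0 z1) (hev W e z0 z1) = 0

/-- `F / G`, of degree `d`, is purely inseparable. -/
def PInsep {K : Type} [Field K] (F G : K[X]) (d : ℕ) : Prop :=
  (∃ ν : ℕ, d = ringExpChar K ^ ν) ∧
    ∃ a b c e : K, F = C a * X ^ d + C b ∧ G = C c * X ^ d + C e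

end Pool.Agent.Helper38.DT
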