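import Pool.Agent.Helper38.DT.Final
import Pool.Agent.Helper33.PT.Defs

/-!
# Independence of conjugate orbits: the form used in Plan T
-/

set_option autoImplicit false
set_option linter.style.haveILetI false

namespace Pool.Agent.Helper38.DT

open Polynomial IntermediateField Pool.Agent.Helper16 Pool.Agent.Helper45.FR
  Pool.Agent.Helper45.S6 Pool.Agent.Helper33.PS

/-- a polynomial in two variables, as an element of `MvPolynomial (Fin 2) E` -/
noncomputable def toMv {E : Type} [Field E] (m : ℕ) (q : Polynomial (Polynomial E)) :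
    MvPolynomial (Fin 2) E :=
  ∑ i ∈ Finset.range m, ∑ j ∈ Finset.range m,
    MvPolynomial.monomial (Finsupp.single 0 j + Finsupp.single 1 i) ((q.coeff i).coeff j)

theorem coeff_toMv {E : Type} [Field E] (m : ℕ) (q : Polynomial (Polynomial E)) (s : Fin 2 →₀ ℕ) :
    MvPolynomial.coeff s (toMv m q) =
      if s 0 < m ∧ s 1 < m then (q.coeff (s 1)).coeff (s 0) else 0 := by
  classical
  have hs : ∀ i j : ℕ, (Finsupp.single (0 : Fin 2) j + Finsupp.single 1 i = s) ↔ (j = s 0 ∧ i = s 1) := by
    intro i j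
    constructor
    · intro h
      rw [← h]
      simp
    · rintro ⟨rfl, rfl⟩
      ext a
      fin_cases a <;> simp
  unfold toMv
  rw [MvPolynomial.coeff_sum]
  simp_rw [MvPolynomial.coeff_sum, MvPolynomial.coeff_monomial, hs]
  by_cases h0 : s 0 < m
  · by_cases h1 : s 1 < m
    · rw [if_pos ⟨h0, h1⟩, Finset.sum_eq_single (s 1), Finset.sum_eq_single (s 0)]
      · simp
      · intro j _ hj
        rw [if_neg (fun h => hj h.1)]
      · intro h
        exact absurd (Finset.mem_range.2 h0) h
      · intro i _ hi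
        refine Finset.sum_eq_zero fun j _ => ?_
        rw [if_neg (fun h => hi h.2)]
      · intro h
        exact absurd (Finset.mem_range.2 h1) h
    · rw [if_neg (fun h => h1 h.2)]
      refine Finset.sum_eq_zero fun i hi => Finset.sum_eq_zero fun j _ => ?_
      rw [if_neg]
      rintro ⟨-, rfl⟩
      exact h1 (Finset.mem_range.1 hi)
  · rw [if_neg (fun h => h0 h.1)]
    refine Finset.sum_eq_zero fun i _ => Finset.sum_eq_zero fun j hj => ?_
    rw [if_neg]
    rintro ⟨rfl, -⟩
    exact h0 (Finset.mem_range.1 hj)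

theorem toMv_ne_zero {E : Type} [Field E] {m : ℕ} {q : Polynomial (Polynomial E)} (hq : q ≠ 0)
    (h1 : q.natDegree < m) (h2 : ∀ i, (q.coeff i).natDegree < m) : toMv m q ≠ 0 := by
  intro h
  have hc : (q.coeff q.natDegree).coeff (q.coeff q.natDegree).natDegree ≠ 0 := by
    rw [Polynomial.coeff_natDegree, Polynomial.coeff_natDegree, Polynomial.leadingCoeff_ne_zero,
      Polynomial.leadingCoeff_ne_zero]
    exact hq
  have h3 := coeff_toMv m q (Finsupp.single 0 (q.coeff q.natDegree).natDegree +
    Finsupp.single 1 q.natDegree)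
  rw [h, MvPolynomial.coeff_zero] at h3
  have e0 : (Finsupp.single (0 : Fin 2) (q.coeff q.natDegree).natDegree +
    Finsupp.single 1 q.natDegree : Fin 2 →₀ ℕ) 0 = (q.coeff q.natDegree).natDegree := by simp
  have e1 : (Finsupp.single (0 : Fin 2) (q.coeff q.natDegree).natDegree +
    Finsupp.single 1 q.natDegree : Fin 2 →₀ ℕ) 1 = q.natDegree := by simp
  rw [e0, e1, if_pos ⟨h2 _, h1⟩] at h3
  exact hc h3.symm

theorem degreeOf_toMv {E : Type} [Field E] (m : ℕ) (q : Polynomial (Polynomial E)) (i : Fin 2) :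
    (toMv m q).degreeOf i ≤ m := by
  classical
  rw [MvPolynomial.degreeOf_le_iff]
  intro s hs
  rw [MvPolynomial.mem_support_iff, coeff_toMv] at hs
  by_cases h : s 0 < m ∧ s 1 < m
  · fin_cases i
    · exact h.1.le
    · exact h.2.le
  · rw [if_neg h] at hs
    exact absurd rfl hs

theorem eval_toMv {E : Type} [Field E] {m : ℕ} {q : Polynomial (Polynomial E)}
    (h1 : q.natDegree < m) (h2 : ∀ i, (q.coeff i).natDegree < m) (a b : E) :
    MvPolynomial.eval ![a, b] (toMv m q) = (q.eval (C b)).eval a := by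
  classical
  unfold toMv
  rw [map_sum, Polynomial.eval_eq_sum_range' h1, Polynomial.eval_finsetSum]
  refine Finset.sum_congr rfl fun i _ => ?_
  rw [map_sum, Polynomial.eval_mul, ← Polynomial.C_pow, Polynomial.eval_C,
    Polynomial.eval_eq_sum_range' (h2 i), Finset.sum_mul]
  refine Finset.sum_congr rfl fun j _ => ?_
  rw [MvPolynomial.eval_monomial, Finsupp.prod_fintype _ _ (fun _ => pow_zero _), Fin.prod_univ_two]
  simp
  ring

/-- **Independence of conjugate orbits**, in the form of the hypothesis of Plan T. -/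
theorem planT_of_indep {k : Type} [Field k] {d n : ℕ} (h : Indep k d n) (m : ℕ) :
    ∃ N : ℕ, ∀ (L : Type) [Field L] [Algebra k L] (t : L), IsFunctionField k L →
      Transcendental k t → Algebra.IsSeparable k⟮t⟯ L → Module.finrank k⟮t⟯ L ≤ n →
      ∀ F G : L[X], IsCoprime F G → F.natDegree ≤ d → G.natDegree ≤ d →
        (F.coeff d ≠ 0 ∨ G.coeff d ≠ 0) → ∀ x : ℕ → L, RatOrbit F G x N →
        ∀ (E : Type) [Field E] [Algebra k E] [Algebra L E] [IsScalarTower k L E]
          [Algebra.IsAlgebraic L E] (σ : E ≃ₐ[k] E), σ (algebraMap L E t) = algebraMap L E t →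
        (∃ a : L, σ (algebraMap L E a) ≠ algebraMap L E a) →
        ∀ q : Polynomial (Polynomial E), q ≠ 0 → q.natDegree < m →
          (∀ i, (q.coeff i).natDegree < m) →
          (∀ j ≤ N, (q.eval (C (σ (algebraMap L E (x j))))).eval (algebraMap L E (x j)) = 0) →
          ConstConj k F G d := by
  classical
  obtain ⟨N, hN⟩ := h m
  refine ⟨N, ?_⟩
  intro L _ _ t hL ht hsep hfin F G hcop hF hG htop x hx E _ _ _ _ _ σ hσt hσ q hq hq1 hq2 hrel
  let e : E →ₐ[L] AlgebraicClosure L := IsAlgClosed.lift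
  have hek : ∀ c : k, e (algebraMap k E c) = algebraMap k (AlgebraicClosure L) c := by
    intro c
    rw [IsScalarTower.algebraMap_apply k L E, e.commutes, ← IsScalarTower.algebraMap_apply]
  let f : L →+* AlgebraicClosure L :=
    (e : E →+* AlgebraicClosure L).comp ((σ : E →+* E).comp (algebraMap L E))
  have hfdef : ∀ a, f a = e (σ (algebraMap L E a)) := fun a => rfl
  have hfix : ∀ a ∈ k⟮t⟯, f a = algebraMap L (AlgebraicClosure L) a := by
    intro a ha
    induction ha using IntermediateField.adjoin_induction with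
    | mem b hb =>
      rw [Set.mem_singleton_iff] at hb
      subst hb
      rw [hfdef, hσt, e.commutes]
    | algebraMap c =>
      rw [hfdef, ← IsScalarTower.algebraMap_apply k L E, σ.commutes, hek,
        ← IsScalarTower.algebraMap_apply]
    | add b c _ _ hb hc => rw [map_add, map_add, hb, hc]
    | inv b _ hb => rw [map_inv₀, map_inv₀, hb]
    | mul b c _ _ hb hc => rw [map_mul, map_mul, hb, hc]
  let τ : L →ₐ[k⟮t⟯] AlgebraicClosure L :=
    { f with
      commutes' := fun a => by
        change f (a : L) = _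
        rw [hfix a a.2]
        rfl }
  have hτ : ∀ a, τ a = e (σ (algebraMap L E a)) := fun a => rfl
  refine hN L t hL ht hsep hfin F G hcop hF hG htop x hx τ ?_
    (MvPolynomial.map (e : E →+* AlgebraicClosure L) (toMv m q)) ?_ ?_ ?_
  · obtain ⟨a, ha⟩ := hσ
    refine ⟨a, ?_⟩
    rw [hτ, ← e.commutes a]
    exact fun h => ha ((e : E →+* AlgebraicClosure L).injective h)
  · intro h0
    apply toMv_ne_zero hq hq1 hq2
    apply MvPolynomial.map_injective (e : E →+* AlgebraicClosure L)
      (e : E →+* AlgebraicClosure L).injective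
    rw [h0, map_zero]
  · intro i
    refine le_trans ?_ (degreeOf_toMv m q i)
    rw [MvPolynomial.degreeOf_def, MvPolynomial.degreeOf_def]
    exact Multiset.count_le_of_le i MvPolynomial.degrees_map_le
  · intro j hj
    have h1 := congrArg e (hrel j hj)
    rw [map_zero, ← eval_toMv hq1 hq2] at h1
    rw [← h1, MvPolynomial.eval_map, hτ]
    have h2 := MvPolynomial.eval₂_comp_left (e : E →+* AlgebraicClosure L) (RingHom.id E)
      ![algebraMap L E (x j), σ (algebraMap L E (x j))] (toMv m q)
    rw [RingHom.comp_id] at h2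
    change _ = (e : E →+* AlgebraicClosure L) (MvPolynomial.eval₂ (RingHom.id E)
      ![algebraMap L E (x j), σ (algebraMap L E (x j))] (toMv m q))
    rw [h2]
    congr 1
    funext i
    fin_cases i
    · change algebraMap L (AlgebraicClosure L) (x j) = e (algebraMap L E (x j))
      rw [e.commutes]
    · rfl

/-- **Independence of conjugate orbits** for Plan T, from the theorem for smaller degrees. -/
theorem planT_of_abs (k : Type) [Field k] [IsAlgClosed k] (d n : ℕ) (hd : 2 ≤ d)
    (hIH : ∀ d' n' : ℕ, 2 ≤ d' → n' < n → AbsS k d' n') (m : ℕ) :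
    ∃ N : ℕ, ∀ (L : Type) [Field L] [Algebra k L] (t : L), IsFunctionField k L →
      Transcendental k t → Algebra.IsSeparable k⟮t⟯ L → Module.finrank k⟮t⟯ L ≤ n →
      ∀ F G : L[X], IsCoprime F G → F.natDegree ≤ d → G.natDegree ≤ d →
        (F.coeff d ≠ 0 ∨ G.coeff d ≠ 0) → ∀ x : ℕ → L, RatOrbit F G x N →
        ∀ (E : Type) [Field E] [Algebra k E] [Algebra L E] [IsScalarTower k L E]
          [Algebra.IsAlgebraic L E] (σ : E ≃ₐ[k] E), σ (algebraMap L E t) = algebraMap L E t →
        (∃ a : L, σ (algebraMap L E a) ≠ algebraMap L E a) →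
        ∀ q : Polynomial (Polynomial E), q ≠ 0 → q.natDegree < m →
          (∀ i, (q.coeff i).natDegree < m) →
          (∀ j ≤ N, (q.eval (C (σ (algebraMap L E (x j))))).eval (algebraMap L E (x j)) = 0) →
          ConstConj k F G d :=
  planT_of_indep (indep_of_abs k d n hd hIH) m

/-- The last hypothesis of `PlanTAbs`, for all function fields of degree `≤ n` at once. -/
theorem exists_wm (k : Type) [Field k] [IsAlgClosed k] (d n : ℕ) (hd : 2 ≤ d)
    (hIH : ∀ d' n' : ℕ, 2 ≤ d' → n' < n → AbsS k d' n') :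
    ∃ wm : ℕ → ℕ, ∀ (L : Type) [Field L] [Algebra k L] (t : L), IsFunctionField k L →
      Transcendental k t → Algebra.IsSeparable k⟮t⟯ L → Module.finrank k⟮t⟯ L ≤ n →
      ∀ (E : Type) [Field E] [Algebra k E] [Algebra L E] [IsScalarTower k L E]
        [Algebra.IsAlgebraic L E] (F G : L[X]), ¬ ConstConj k F G d →
      ∀ (F' G' : L[X]) (z : ℕ → L) (m : ℕ), IsRat F' G' d → RatOrbit F' G' z (wm m) →
      (ConstConj k F' G' d → ConstConj k F G d) →
      ∀ σ : E ≃ₐ[k] E, σ (algebraMap L E t) = algebraMap L E t →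
      (∃ y : L, σ (algebraMap L E y) ≠ algebraMap L E y) →
      ∀ q : Polynomial (Polynomial E), q ≠ 0 → q.natDegree < m → (∀ i, (q.coeff i).natDegree < m) →
      ∃ j ≤ wm m, (q.eval (C (σ (algebraMap L E (z j))))).eval (algebraMap L E (z j)) ≠ 0 := by
  choose wm hwm using planT_of_abs k d n hd hIH
  refine ⟨wm, ?_⟩
  intro L _ _ t hL ht hsep hfin E _ _ _ _ _ F G hFG F' G' z m hR hz himp σ hσt hσ q hq hq1 hq2
  by_contra hcon
  push Not at hcon
  exact hFG (himp (hwm m L t hL ht hsep hfin F' G' hR.cop hR.dA hR.dB hR.top z hz E σ hσt hσ q hq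
    hq1 hq2 hcon))

end Pool.Agent.Helper38.DT
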