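import Pool.Agent.Helper38.DT.Variant
import Pool.Agent.Helper34.Dep.PartA

/-!
# Independence of conjugate orbits: final statement
-/

set_option autoImplicit false

namespace Pool.Agent.Helper38.DT

open Pool.Agent.Helper45.S6

theorem partAStmt (d n m : ℕ) (hd : 2 ≤ d) : PartAStmt d n m :=
  Pool.Agent.Helper34.Dep.partA d n m hd

/-- **Independence of conjugate orbits**: assuming the theorem for function fields of smaller
degree over `k(t)`, every relation of bounded bidegree between a long orbit and a conjugate orbit
forces the rational function to be conjugate to a constant one. -/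
theorem indep_of_abs (k : Type) [Field k] [IsAlgClosed k] (d n : ℕ) (hd : 2 ≤ d)
    (hIH : ∀ d' n' : ℕ, 2 ≤ d' → n' < n → AbsS k d' n') : Indep k d n :=
  indep_of_partA k d n hd (fun m => partAStmt d n m hd) hIH

theorem indepE_of_abs (k : Type) [Field k] [IsAlgClosed k] (d n : ℕ) (hd : 2 ≤ d)
    (hIH : ∀ d' n' : ℕ, 2 ≤ d' → n' < n → AbsS k d' n') : IndepE k d n :=
  indepE_of_indep (indep_of_abs k d n hd hIH)

end Pool.Agent.Helper38.DT
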