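import Pool.Agent.Helper45.RatRed
import Pool.Agent.Helper38.DT.Defs

/-!
# Iterates of an endomorphism lying over a rational function
-/

set_option autoImplicit false
set_option linter.style.haveILetI false

namespace Pool.Agent.Helper38.DT

open Polynomial Pool.Agent.Helper93.RatODE Pool.Agent.Helper45.FR

section iterEndo

variable {E M : Type} [Field E] [Field M] [Algebra E M]

theorem phi_iter_one (F G : E[X]) (d : ℕ) (z : M) (a : ℕ) :
    (phi F G d)^[a] (z, 1) = (aeval z (iter F G d a).1, aeval z (iter F G d a).2) := by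
  rw [phi_iter]
  have h1 := (iter_natDegree (P := F) (Q := G) (d := d) a).1
  have h2 := (iter_natDegree (P := F) (Q := G) (d := d) a).2
  rw [hev_eq _ _ h1 _ _ one_ne_zero, hev_eq _ _ h2 _ _ one_ne_zero]
  simp

theorem iter_comp (F G : E[X]) (d : ℕ) (z u : M) (a b : ℕ)
    (h0 : aeval z (iter F G d a).2 ≠ 0)
    (hu : u * aeval z (iter F G d a).2 = aeval z (iter F G d a).1) :
    aeval z (iter F G d (a + b)).1 =
        (aeval z (iter F G d a).2) ^ (d ^ b) * aeval u (iter F G d b).1 ∧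
      aeval z (iter F G d (a + b)).2 =
        (aeval z (iter F G d a).2) ^ (d ^ b) * aeval u (iter F G d b).2 := by
  have h1 := phi_iter_one F G d z (a + b)
  rw [add_comm a b, Function.iterate_add_apply, phi_iter_one, phi_iter] at h1
  have h2 := (iter_natDegree (P := F) (Q := G) (d := d) b).1
  have h3 := (iter_natDegree (P := F) (Q := G) (d := d) b).2
  rw [hev_eq _ _ h2 _ _ h0, hev_eq _ _ h3 _ _ h0, ← hu, mul_div_cancel_right₀ _ h0] at h1
  rw [add_comm a b]
  exact ⟨(congrArg Prod.fst h1).symm, (congrArg Prod.snd h1).symm⟩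

theorem iter_snd_ne_zero (F G : E[X]) (d : ℕ) (hd : 2 ≤ d) (hFG : IsRatD F G d) (a : ℕ) :
    (iter F G d a).2 ≠ 0 := by
  intro h0
  have h1 := iter_isCoprime hFG.cop hFG.degF hFG.degG hFG.top a
  have h2 := iter_coeff hFG.cop hFG.degF hFG.degG hFG.top a
  rw [h0, isCoprime_zero_right] at h1
  rw [h0, coeff_zero] at h2
  have h3 : 1 ≤ d ^ a := Nat.one_le_pow _ _ (by omega)
  rcases h2 with h2 | h2
  · apply h2
    apply coeff_eq_zero_of_natDegree_lt
    rw [natDegree_eq_zero_of_isUnit h1]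
    omega
  · exact h2 rfl

theorem isRatD_iter (F G : E[X]) (d : ℕ) (hFG : IsRatD F G d) (a : ℕ) :
    IsRatD (iter F G d a).1 (iter F G d a).2 (d ^ a) :=
  ⟨iter_isCoprime hFG.cop hFG.degF hFG.degG hFG.top a, (iter_natDegree a).1, (iter_natDegree a).2,
    iter_coeff hFG.cop hFG.degF hFG.degG hFG.top a⟩

theorem iter_endo {z : M} (hz : Transcendental E z) (F G : E[X]) (d : ℕ) (hd : 2 ≤ d)
    (hFG : IsRatD F G d) (Φ : M →ₐ[E] M) (r : ℕ)
    (hΦ : Φ z * aeval z (iter F G d r).2 = aeval z (iter F G d r).1) (i : ℕ) :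
    (Φ ^ i) z * aeval z (iter F G d (r * i)).2 = aeval z (iter F G d (r * i)).1 := by
  have hne : ∀ a, aeval z (iter F G d a).2 ≠ 0 := by
    intro a h0
    exact hz ⟨_, iter_snd_ne_zero F G d hd hFG a, h0⟩
  induction i with
  | zero => simp [iter]
  | succ i ih =>
    obtain ⟨h1, h2⟩ := iter_comp F G d z (Φ z) r (r * i) (hne r) hΦ
    have h3 := congrArg Φ ih
    rw [map_mul, ← aeval_algHom_apply, ← aeval_algHom_apply] at h3
    rw [Nat.mul_succ, add_comm (r * i) r, h1, h2, pow_succ', ← h3]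
    change Φ ((Φ ^ i) z) * _ = _
    ring

end iterEndo

end Pool.Agent.Helper38.DT
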