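import Pool.Agent.Helper45.RatRed

/-!
# Transport of `ConstConj` along homomorphisms
-/

set_option autoImplicit false

namespace Pool.Agent.Helper38.DT

open Polynomial Pool.Agent.Helper93.RatODE Pool.Agent.Helper45.FR

theorem map_hev {K K' : Type} [Field K] [Field K'] (f : K →+* K') (P : K[X]) (n : ℕ) (U W : K[X]) :
    (hev P n U W : K[X]).map f = hev (P.map f) n (U.map f) (W.map f) := by
  unfold hev
  rw [Polynomial.map_sum]
  refine Finset.sum_congr rfl fun j _ => ?_
  rw [Polynomial.map_mul, Polynomial.map_mul, Polynomial.map_pow, Polynomial.map_pow, coeff_map]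
  congr 2
  exact Polynomial.map_C f

theorem constConj_hom {k K K' : Type} [Field k] [Field K] [Field K'] [Algebra k K] [Algebra k K']
    (f : K →+* K') (f₀ : k →+* k) (hf : ∀ a, f (algebraMap k K a) = algebraMap k K' (f₀ a))
    (P Q : K[X]) (d : ℕ) (h : ConstConj k P Q d) : ConstConj k (P.map f) (Q.map f) d := by
  obtain ⟨A, P', Q', c, hA, hc, hP', hQ', hcop, htop, h1, h2⟩ := h
  have hcomp : f.comp (algebraMap k K) = (algebraMap k K').comp f₀ := by
    ext a; exact hf a
  have hmap : ∀ R : k[X], (R.map (algebraMap k K)).map f = (R.map f₀).map (algebraMap k K') := by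
    intro R
    rw [Polynomial.map_map, Polynomial.map_map, hcomp]
  refine ⟨A.map f, P'.map f₀, Q'.map f₀, f c, ?_, ?_, natDegree_map_le.trans hP',
    natDegree_map_le.trans hQ', ?_, ?_, ?_, ?_⟩
  · have : (A.map f).det = f A.det := by
      simp [Matrix.det_fin_two]
    rw [this]
    simpa using hA
  · simpa using hc
  · rw [← hmap, ← hmap]
    exact (Polynomial.isCoprime_map f).2 hcop
  · rw [coeff_map, coeff_map]
    rcases htop with h | h
    · left; simpa using h
    · right; simpa using h
  · have h3 := congrArg (Polynomial.map f) h1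
    rw [map_hev] at h3
    simp only [Polynomial.map_add, Polynomial.map_mul, Polynomial.map_C, Polynomial.map_X,
      hmap] at h3
    exact h3
  · have h3 := congrArg (Polynomial.map f) h2
    rw [map_hev] at h3
    simp only [Polynomial.map_add, Polynomial.map_mul, Polynomial.map_C, Polynomial.map_X,
      hmap] at h3
    exact h3

theorem constConj_of_ringEquiv {k E : Type} [Field k] [Field E] [Algebra k E] (th : E ≃+* E)
    (th0 : k ≃+* k) (hth : ∀ c, th (algebraMap k E c) = algebraMap k E (th0 c)) (A B : E[X]) (d : ℕ)
    (h : ConstConj k (A.map (th : E →+* E)) (B.map (th : E →+* E)) d) : ConstConj k A B d := by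
  have h1 := constConj_hom (th.symm : E →+* E) (th0.symm : k →+* k) (fun a => by
    change th.symm (algebraMap k E a) = algebraMap k E (th0.symm a)
    rw [RingEquiv.symm_apply_eq, hth, RingEquiv.apply_symm_apply]) _ _ d h
  have h2 : ∀ R : E[X], (R.map (th : E →+* E)).map (th.symm : E →+* E) = R := by
    intro R
    rw [Polynomial.map_map]
    have : (th.symm : E →+* E).comp (th : E →+* E) = RingHom.id E := by
      ext a; simp
    rw [this, Polynomial.map_id]
  rwa [h2, h2] at h1

theorem constConj_map {k L E : Type} [Field k] [Field L] [Field E] [Algebra k L] [Algebra k E]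
    [Algebra L E] [IsScalarTower k L E] (A B : L[X]) (d : ℕ) (h : ConstConj k A B d) :
    ConstConj k (A.map (algebraMap L E)) (B.map (algebraMap L E)) d :=
  constConj_hom (algebraMap L E) (RingHom.id k)
    (fun a => (IsScalarTower.algebraMap_apply k L E a).symm) A B d h

end Pool.Agent.Helper38.DT
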