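import Pool.Agent.Helper38.DT.SubF
import Pool.Agent.Helper45.S6Main
import Pool.Agent.Helper38.DT.Transport

/-!
# Frobenius twist and the induction hypothesis
-/

set_option autoImplicit false
set_option linter.style.haveILetI false

namespace Pool.Agent.Helper38.DT

open Polynomial IntermediateField Pool.Agent.Helper16 Pool.Agent.Helper45.S4 Pool.Agent.Helper45.FR
  Pool.Agent.Helper93.RatODE

section twist

variable {L Om : Type} [Field L] [Field Om] [Algebra L Om]

/-- `a ^ (p ^ e)` lies in the subfield `S` of `L` -/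
def InP (S : Subfield L) (p e : ℕ) (a : Om) : Prop := ∃ b ∈ S, a ^ p ^ e = algebraMap L Om b

theorem InP.mono {S : Subfield L} {p e e' : ℕ} {a : Om} (h : InP S p e a) (he : e ≤ e') :
    InP S p e' a := by
  obtain ⟨b, hb, hab⟩ := h
  obtain ⟨m, rfl⟩ := Nat.exists_eq_add_of_le he
  refine ⟨b ^ p ^ m, S.pow_mem hb _, ?_⟩
  rw [pow_add, pow_mul, hab, map_pow]

theorem exists_common {S : Subfield L} {p : ℕ} (T : Set Om) (hT : T.Finite)
    (h : ∀ a ∈ T, ∃ e, InP S p e a) : ∃ e, ∀ a ∈ T, InP S p e a := by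
  classical
  choose! f hf using h
  refine ⟨hT.toFinset.sup f, fun a ha => (hf a ha).mono ?_⟩
  exact Finset.le_sup (f := f) (hT.mem_toFinset.2 ha)

end twist

theorem partD {k L Om : Type} [Field k] [IsAlgClosed k] [Field L] [Algebra k L] [Field Om]
    [IsAlgClosed Om] [Algebra k Om] [Algebra L Om] [IsScalarTower k L Om]
    (hL : IsFunctionField k L) (t : L) (ht : Transcendental k t) [Algebra.IsSeparable k⟮t⟯ L]
    (n : ℕ) (hn : Module.finrank k⟮t⟯ L ≤ n) (L₀ : IntermediateField k⟮t⟯ L) (hL₀ : L₀ ≠ ⊤)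
    (A B : Om[X]) (δ N₂ : ℕ) (hAB : IsRatD A B δ) (c : ℕ → Om)
    (hA : ∀ i, ∃ e, ∃ b ∈ L₀, A.coeff i ^ (ringExpChar k ^ e) = algebraMap L Om b)
    (hB : ∀ i, ∃ e, ∃ b ∈ L₀, B.coeff i ^ (ringExpChar k ^ e) = algebraMap L Om b)
    (hc : ∀ l, ∃ e, ∃ b ∈ L₀, c l ^ (ringExpChar k ^ e) = algebraMap L Om b)
    (hstep : ∀ l, B.eval (c l) ≠ 0 ∧ c (l + 1) = A.eval (c l) / B.eval (c l))
    (hfin : (Set.range c).Finite) (hinj : ∀ i j, i ≤ N₂ → j ≤ N₂ → c i = c j → i = j)
    (hIH : ∀ (K : Type) [Field K] [Algebra k K] (s : K), IsFunctionField k K →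
      Transcendental k s → Algebra.IsSeparable k⟮s⟯ K → Module.finrank k⟮s⟯ K ≤ n - 1 →
      ∀ F G : K[X], IsCoprime F G → F.natDegree ≤ δ → G.natDegree ≤ δ →
        (F.coeff δ ≠ 0 ∨ G.coeff δ ≠ 0) → ∀ x : ℕ → K, RatOrbit F G x N₂ → ConstConj k F G δ) :
    ConstConj k A B δ := by
  classical
  set p := ringExpChar k with hp
  haveI : ExpChar k p := ringExpChar.expChar k
  haveI : ExpChar Om p := expChar_of_injective_algebraMap (algebraMap k Om).injective p
  -- the subfield
  let F : IntermediateField k L := L₀.restrictScalars k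
  have hF : k⟮t⟯ ≤ F := by
    rw [adjoin_simple_le_iff]
    exact L₀.algebraMap_mem ⟨t, mem_adjoin_simple_self k t⟩
  -- a common exponent
  obtain ⟨e, he⟩ : ∃ e, ∀ a ∈ (Set.range c ∪ (Set.range A.coeff ∪ Set.range B.coeff)),
      InP F.toSubfield p e a := by
    refine exists_common _ ?_ ?_
    · refine hfin.union (Set.Finite.union ?_ ?_)
      · refine (Finset.finite_toSet (insert 0 (A.support.image A.coeff))).subset ?_
        rintro _ ⟨i, rfl⟩
        by_cases hi : A.coeff i = 0
        · rw [hi]; simp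
        · have : A.coeff i ∈ A.support.image A.coeff :=
            Finset.mem_image_of_mem _ (mem_support_iff.2 hi)
          simp only [Finset.coe_insert, Set.mem_insert_iff, Finset.mem_coe]
          exact Or.inr this
      · refine (Finset.finite_toSet (insert 0 (B.support.image B.coeff))).subset ?_
        rintro _ ⟨i, rfl⟩
        by_cases hi : B.coeff i = 0
        · rw [hi]; simp
        · have : B.coeff i ∈ B.support.image B.coeff :=
            Finset.mem_image_of_mem _ (mem_support_iff.2 hi)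
          simp only [Finset.coe_insert, Set.mem_insert_iff, Finset.mem_coe]
          exact Or.inr this
    · rintro a (⟨l, rfl⟩ | ⟨i, rfl⟩ | ⟨i, rfl⟩)
      · exact hc l
      · exact hA i
      · exact hB i
  -- the Frobenius
  let φ : Om →+* Om := iterateFrobenius Om p e
  have hφ : ∀ a, φ a = a ^ p ^ e := fun a => iterateFrobenius_def p e a
  let ι : F →+* Om := (algebraMap L Om).comp (algebraMap F L)
  have hι : Function.Injective ι := ι.injective
  have hrange : ∀ a, InP F.toSubfield p e a → φ a ∈ Set.range ι := by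
    rintro a ⟨b, hb, hab⟩
    exact ⟨⟨b, hb⟩, by rw [hφ, hab]; rfl⟩
  obtain ⟨A₀, hA₀⟩ : ∃ A₀ : F[X], A₀.map ι = A.map φ := by
    rw [← Polynomial.mem_lifts, Polynomial.lifts_iff_coeff_lifts]
    intro i
    rw [coeff_map]
    exact hrange _ (he _ (Or.inr (Or.inl ⟨i, rfl⟩)))
  obtain ⟨B₀, hB₀⟩ : ∃ B₀ : F[X], B₀.map ι = B.map φ := by
    rw [← Polynomial.mem_lifts, Polynomial.lifts_iff_coeff_lifts]
    intro i
    rw [coeff_map]
    exact hrange _ (he _ (Or.inr (Or.inr ⟨i, rfl⟩)))
  have hc₀ : ∀ l, ∃ b : F, ι b = φ (c l) := fun l => hrange _ (he _ (Or.inl ⟨l, rfl⟩))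
  choose c₀ hc₀ using hc₀
  have hrat : IsRatD A₀ B₀ δ := by
    refine ⟨?_, ?_, ?_, ?_⟩
    · rw [← Polynomial.isCoprime_map ι, hA₀, hB₀, Polynomial.isCoprime_map φ]
      exact hAB.cop
    · rw [← natDegree_map_eq_of_injective hι A₀, hA₀,
        natDegree_map_eq_of_injective φ.injective]
      exact hAB.degF
    · rw [← natDegree_map_eq_of_injective hι B₀, hB₀,
        natDegree_map_eq_of_injective φ.injective]
      exact hAB.degG
    · have h1 : ι (A₀.coeff δ) = φ (A.coeff δ) := by
        rw [← coeff_map, hA₀, coeff_map]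
      have h2 : ι (B₀.coeff δ) = φ (B.coeff δ) := by
        rw [← coeff_map, hB₀, coeff_map]
      rcases hAB.top with h | h
      · left
        intro h0
        rw [h0, map_zero] at h1
        exact h ((map_eq_zero φ).1 h1.symm)
      · right
        intro h0
        rw [h0, map_zero] at h2
        exact h ((map_eq_zero φ).1 h2.symm)
  have hevA : ∀ l, ι (A₀.eval (c₀ l)) = φ (A.eval (c l)) := by
    intro l
    rw [← eval_map_apply, hA₀, hc₀, eval_map_apply]
  have hevB : ∀ l, ι (B₀.eval (c₀ l)) = φ (B.eval (c l)) := by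
    intro l
    rw [← eval_map_apply, hB₀, hc₀, eval_map_apply]
  have horb : RatOrbit A₀ B₀ c₀ N₂ := by
    refine ⟨?_, ?_, ?_, ?_⟩
    · intro l h0
      have h1 := hevB l
      rw [h0, map_zero] at h1
      exact (hstep l).1 ((map_eq_zero φ).1 h1.symm)
    · intro l
      apply hι
      rw [map_div₀, hevA, hevB, ← map_div₀, ← (hstep l).2, hc₀]
    · intro i j hi hj hij
      refine hinj i j hi hj (φ.injective ?_)
      rw [← hc₀, ← hc₀, hij]
    · refine Set.Finite.of_finite_image (f := ι) (Set.Finite.subset (hfin.image φ) ?_) hι.injOn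
      rintro _ ⟨_, ⟨l, rfl⟩, rfl⟩
      exact ⟨c l, ⟨l, rfl⟩, (hc₀ l).symm⟩
  -- the induction hypothesis
  have hfinrank : Module.finrank k⟮(⟨t, mem_of_le t F hF⟩ : F)⟯ F ≤ n - 1 := by
    have h1 := finrank_sub t F hF
    haveI := finiteDimensional_adjoin hL t ht
    have h2 : 0 < Module.finrank k⟮t⟯ L := Module.finrank_pos
    have h3 : Module.finrank F L ≠ 1 := by
      intro h4
      rw [IntermediateField.finrank_eq_one_iff_eq_top] at h4
      apply hL₀
      apply IntermediateField.restrictScalars_injective k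
      rw [restrictScalars_top]
      exact h4
    have h5 : Module.finrank F L ≠ 0 := by
      intro h4
      rw [h4, mul_zero] at h1
      omega
    have h6 : 2 ≤ Module.finrank F L := by omega
    have h7 : 0 < Module.finrank k⟮(⟨t, mem_of_le t F hF⟩ : F)⟯ F := by
      rcases Nat.eq_zero_or_pos (Module.finrank k⟮(⟨t, mem_of_le t F hF⟩ : F)⟯ F) with h8 | h8
      · rw [h8, zero_mul] at h1
        omega
      · exact h8
    have h8 := Nat.mul_le_mul_left (Module.finrank k⟮(⟨t, mem_of_le t F hF⟩ : F)⟯ F) h6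
    omega
  have h1 : ConstConj k A₀ B₀ δ :=
    hIH F ⟨t, mem_of_le t F hF⟩ (isFunctionField_sub hL t ht F hF)
      (transcendental_sub t ht F hF) (isSeparable_sub t F hF) hfinrank A₀ B₀ hrat.cop hrat.degF
      hrat.degG hrat.top c₀ horb
  -- back to `Om`
  haveI : IsScalarTower k F Om := IsScalarTower.of_algebraMap_eq (R := k) (S := F) (A := Om)
    (fun a => by
    change algebraMap k Om a = algebraMap L Om (algebraMap F L (algebraMap k F a))
    rw [← IsScalarTower.algebraMap_apply k F L, ← IsScalarTower.algebraMap_apply k L Om])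
  have h2 := constConj_map (E := Om) A₀ B₀ δ h1
  have h3 : (algebraMap F Om) = ι := rfl
  rw [h3, hA₀, hB₀] at h2
  haveI : PerfectRing Om p := inferInstance
  haveI : PerfectRing k p := inferInstance
  have hφ' : φ = (iterateFrobeniusEquiv Om p e : Om →+* Om) := by
    ext a
    rw [hφ, RingEquiv.coe_toRingHom, iterateFrobeniusEquiv_def]
  rw [hφ'] at h2
  refine constConj_of_ringEquiv (iterateFrobeniusEquiv Om p e) (iterateFrobeniusEquiv k p e) ?_ A B
    δ h2
  intro a
  rw [iterateFrobeniusEquiv_def, iterateFrobeniusEquiv_def, map_pow]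

end Pool.Agent.Helper38.DT
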