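import Pool.Agent.Helper38.DT.PartC
import Pool.Agent.Helper38.DT.PartD
import Pool.Agent.Helper38.DT.IterEndo
import Pool.Agent.Helper31.DT.SepDeg
import Pool.Agent.Helper45.DT.Descent
import Pool.Agent.Helper45.DT.Insep
import Pool.Agent.Helper91.DT.Main
import Pool.Agent.Helper34.Dep.Defs
import Pool.Agent.Helper47.EN.Final
import Pool.Agent.Helper36.DT.Main

/-!
# Independence of conjugate orbits: assembly
-/

set_option autoImplicit false
set_option linter.style.haveILetI false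

namespace Pool.Agent.Helper38.DT

open Polynomial IntermediateField Pool.Agent.Helper16 Pool.Agent.Helper45.S4 Pool.Agent.Helper45.FR
  Pool.Agent.Helper93.RatODE Pool.Agent.Helper45.S6 Pool.Agent.Helper47.EN Pool.Agent.Helper34.Dep

/-- the statement of part A -/
def PartAStmt (d n m : ℕ) : Prop := ∃ C : ℕ, ∀ N' : ℕ, ∃ N : ℕ,
    ∀ (k L : Type) [Field k] [IsAlgClosed k]
    [Field L] [Algebra k L] (t : L), IsFunctionField k L → Transcendental k t →
    Algebra.IsSeparable k⟮t⟯ L → Module.finrank k⟮t⟯ L ≤ n →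
    ∀ F G : L[X], IsRatD F G d → ∀ x : ℕ → L, RatOrbit F G x N →
    ∀ τ : L →ₐ[k⟮t⟯] AlgebraicClosure L, (∃ a, τ a ≠ algebraMap L (AlgebraicClosure L) a) →
    ∀ P : MvPolynomial (Fin 2) (AlgebraicClosure L), P ≠ 0 → (∀ i, P.degreeOf i ≤ m) →
    (∀ j ≤ N, MvPolynomial.eval ![algebraMap L (AlgebraicClosure L) (x j), τ (x j)] P = 0) →
    ∃ (L₀ : IntermediateField k⟮t⟯ L)
      (Γ : Subgroup (AlgebraicClosure L ≃ₐ[k⟮t⟯] AlgebraicClosure L))
      (M : Type) (_ : Field M) (_ : Algebra (AlgebraicClosure L) M)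
      (hM : IsFunctionField (AlgebraicClosure L) M) (Φ : M →ₐ[AlgebraicClosure L] M) (z : M)
      (r j₀ : ℕ) (w : ℕ → Place (AlgebraicClosure L) M),
      L₀ ≠ ⊤ ∧
      (∀ a : AlgebraicClosure L, (∀ g ∈ Γ, g a = a) → ∃ e : ℕ, ∃ b ∈ L₀,
        a ^ (ringExpChar k ^ e) = algebraMap L (AlgebraicClosure L) b) ∧
      1 ≤ r ∧ r ≤ C ∧ j₀ ≤ C ∧ Transcendental (AlgebraicClosure L) z ∧
      Module.finrank (AlgebraicClosure L)⟮z⟯ M ≤ C ∧
      Φ z * aeval z (iter (F.map (algebraMap L (AlgebraicClosure L)))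
        (G.map (algebraMap L (AlgebraicClosure L))) d r).2 =
        aeval z (iter (F.map (algebraMap L (AlgebraicClosure L)))
        (G.map (algebraMap L (AlgebraicClosure L))) d r).1 ∧
      (∀ l, w (l + 1) = plc hM hM Φ (w l)) ∧ (Set.range w).Finite ∧
      (∀ l l', l ≤ N' → l' ≤ N' → w l = w l' → l = l') ∧
      (∀ l, Pv (w l) z (algebraMap L (AlgebraicClosure L) (x (j₀ + l * r)))) ∧
      ∀ g ∈ Γ, ∃ g' : M ≃+* M,
        (∀ c, g' (algebraMap (AlgebraicClosure L) M c) = algebraMap (AlgebraicClosure L) M (g c)) ∧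
        (∀ u, g' (Φ u) = Φ (g' u)) ∧ ∀ l u, (w l).val (g' u) = (w l).val u

/-- the statement of the rational quotient theorem -/
def QuotStmt : Prop := ∀ (k M : Type) [Field k] [IsAlgClosed k] [Field M] [Algebra k M]
    (_ : IsFunctionField k M) (phi : M →ₐ[k] M) (_ : 2 ≤ Field.finSepDegree phi.fieldRange M)
    (h : M) (_ : Transcendental k h) (_ : phi h ∈ k⟮h⟯),
    ∃ (i : ℕ) (y : M), 1 ≤ i ∧ i ≤ Module.finrank k⟮h⟯ M ∧ Transcendental k y ∧
      (phi ^ i) y ∈ k⟮y⟯ ∧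
      Module.finrank k⟮y⟯ M ≤
        2 * (2 * Module.finrank k⟮h⟯ M + Module.finrank k⟮(phi ^ i) h⟯ M) + 1 ∧
      ∀ (g : M ≃+* M) (g0 : k ≃+* k), (∀ c, g (algebraMap k M c) = algebraMap k M (g0 c)) →
        (∀ x, g (phi x) = phi (g x)) →
        ∃ a b c d : k, a * d - b * c ≠ 0 ∧ algebraMap k M c * y + algebraMap k M d ≠ 0 ∧
          g y = (algebraMap k M a * y + algebraMap k M b) /
            (algebraMap k M c * y + algebraMap k M d)

/-- the statement of DT8 -/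
def CorrStmt : Prop := ∀ {E M : Type} [Field E] [IsAlgClosed E] [Field M] [Algebra E M]
    (_ : IsFunctionField E M) (Ψ : M →ₐ[E] M) (y z : M) (_ : Transcendental E y)
    (_ : Transcendental E z) (A B U W : E[X]) (δ e : ℕ) (_ : IsRatD A B δ)
    (_ : IsRatD U W e) (_ : Ψ y * aeval y B = aeval y A) (_ : Ψ z * aeval z W = aeval z U),
    ∃ (q : ℕ → ℕ → E) (m n : ℕ), Corr q m n A B δ U W e

/-- independence of conjugate orbits: every bounded relation forces the map to be constant -/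
def Indep (k : Type) [Field k] (d n : ℕ) : Prop :=
  ∀ m : ℕ, ∃ N : ℕ, ∀ (L : Type) [Field L] [Algebra k L] (t : L), IsFunctionField k L →
    Transcendental k t → Algebra.IsSeparable k⟮t⟯ L → Module.finrank k⟮t⟯ L ≤ n →
    ∀ F G : L[X], IsCoprime F G → F.natDegree ≤ d → G.natDegree ≤ d →
      (F.coeff d ≠ 0 ∨ G.coeff d ≠ 0) → ∀ x : ℕ → L, RatOrbit F G x N →
      ∀ τ : L →ₐ[k⟮t⟯] AlgebraicClosure L, (∃ a, τ a ≠ algebraMap L (AlgebraicClosure L) a) →
      ∀ P : MvPolynomial (Fin 2) (AlgebraicClosure L), P ≠ 0 → (∀ i, P.degreeOf i ≤ m) →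
        (∀ j ≤ N, MvPolynomial.eval ![algebraMap L (AlgebraicClosure L) (x j), τ (x j)] P = 0) →
        ConstConj k F G d

theorem ratOrbit_mono {K : Type} [Field K] {P Q : K[X]} {x : ℕ → K} {N N' : ℕ}
    (h : RatOrbit P Q x N) (hN : N' ≤ N) : RatOrbit P Q x N' :=
  ⟨h.ne, h.step, fun i j hi hj => h.inj i j (hi.trans hN) (hj.trans hN), h.fin⟩

theorem pInsep_of_map {L E : Type} [Field L] [Field E] [Algebra L E] {F G : L[X]} {d : ℕ}
    (hd : 2 ≤ d) (h : PInsep (F.map (algebraMap L E)) (G.map (algebraMap L E)) d) :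
    PInsep F G d := by
  obtain ⟨⟨ν, hν⟩, a, b, c, e, hF, hG⟩ := h
  have hchar : ringExpChar E = ringExpChar L := by
    haveI : ExpChar L (ringExpChar L) := ringExpChar.expChar L
    haveI : ExpChar E (ringExpChar L) :=
      expChar_of_injective_algebraMap (algebraMap L E).injective _
    exact ringExpChar.eq E (ringExpChar L)
  have key : ∀ (H : L[X]) (a b : E), H.map (algebraMap L E) = C a * X ^ d + C b →
      H = C (H.coeff d) * X ^ d + C (H.coeff 0) := by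
    intro H a b hH
    ext i
    rw [coeff_add, coeff_C_mul, coeff_X_pow, coeff_C]
    by_cases h1 : i = d
    · subst h1
      simp [show i ≠ 0 by omega]
    · by_cases h2 : i = 0
      · subst h2
        simp [h1]
      · have h3 := congrArg (fun p => Polynomial.coeff p i) hH
        simp only [coeff_map, coeff_add, coeff_C_mul, coeff_X_pow, coeff_C, h1, h2, if_false,
          mul_zero, add_zero] at h3
        have h4 : H.coeff i = 0 := (map_eq_zero _).1 h3
        simp [h1, h2, h4]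
  exact ⟨⟨ν, by rw [hν, hchar]⟩, _, _, _, _, key F a b hF, key G c e hG⟩

theorem isRatD_map {L E : Type} [Field L] [Field E] [Algebra L E] {F G : L[X]} {d : ℕ}
    (h : IsRatD F G d) : IsRatD (F.map (algebraMap L E)) (G.map (algebraMap L E)) d := by
  refine ⟨(Polynomial.isCoprime_map _).2 h.cop, natDegree_map_le.trans h.degF,
    natDegree_map_le.trans h.degG, ?_⟩
  rw [coeff_map, coeff_map]
  rcases h.top with h1 | h1
  · left; simpa using h1
  · right; simpa using h1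

theorem trdeg_eq_one {k L E : Type} [Field k] [Field L] [Field E] [Algebra k L] [Algebra k E]
    [Algebra L E] [IsScalarTower k L E] [Algebra.IsAlgebraic L E] (hL : IsFunctionField k L) :
    Algebra.trdeg k E = 1 := by
  have h1 := trdeg_add_eq k L (A := E)
  rw [hL.2, trdeg_eq_zero (R := L) (A := E), add_zero] at h1
  exact h1.symm

/-- The case of one orbit. -/
theorem core_one {k L Om M : Type} [Field k] [IsAlgClosed k] [Field L] [Algebra k L] [Field Om]
    [IsAlgClosed Om] [Algebra k Om] [Algebra L Om] [IsScalarTower k L Om]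
    [Algebra.IsAlgebraic L Om] (hQ : QuotStmt) (h8 : CorrStmt)
    (hL : IsFunctionField k L) (t : L) (ht : Transcendental k t) [Algebra.IsSeparable k⟮t⟯ L]
    (n : ℕ) (hn : Module.finrank k⟮t⟯ L ≤ n) (F G : L[X]) (d : ℕ) (hd : 2 ≤ d)
    (hFG : IsRatD F G d) (hins : ¬ PInsep F G d) (x : ℕ → L) (hx : RatOrbit F G x 2)
    (L₀ : IntermediateField k⟮t⟯ L) (hL₀ : L₀ ≠ ⊤) (Γ : Set (Om ≃+* Om))
    (hΓ : ∀ a : Om, (∀ g ∈ Γ, g a = a) → ∃ e : ℕ, ∃ b ∈ L₀,
        a ^ (ringExpChar k ^ e) = algebraMap L Om b)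
    (hΓk : ∀ g ∈ Γ, ∀ a : k, g (algebraMap k Om a) = algebraMap k Om a)
    [Field M] [Algebra Om M] (hM : IsFunctionField Om M) (Φ : M →ₐ[Om] M) (z : M) (r C : ℕ)
    (w : ℕ → Place Om M) (hr1 : 1 ≤ r) (hrC : r ≤ C) (hz : Transcendental Om z)
    (hzC : Module.finrank Om⟮z⟯ M ≤ C)
    (hΦ : Φ z * aeval z (iter (F.map (algebraMap L Om)) (G.map (algebraMap L Om)) d r).2 =
      aeval z (iter (F.map (algebraMap L Om)) (G.map (algebraMap L Om)) d r).1)
    (hw : ∀ l, w (l + 1) = plc hM hM Φ (w l)) (hwfin : (Set.range w).Finite)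
    (N₂ N₁ : ℕ) (hN₁ : N₁ = (N₂ + 2) * (2 * (2 * C + d ^ (C * C) * C) + 1))
    (hwinj : ∀ l l', l ≤ C * N₁ → l' ≤ C * N₁ → w l = w l' → l = l')
    (hext : ∀ g ∈ Γ, ∃ g' : M ≃+* M,
        (∀ c, g' (algebraMap Om M c) = algebraMap Om M (g c)) ∧
        (∀ u, g' (Φ u) = Φ (g' u)) ∧ ∀ l u, (w l).val (g' u) = (w l).val u)
    (hIH : ∀ ρ, 1 ≤ ρ → ρ ≤ C * C → ∀ (K : Type) [Field K] [Algebra k K] (s : K),
      IsFunctionField k K → Transcendental k s → Algebra.IsSeparable k⟮s⟯ K →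
      Module.finrank k⟮s⟯ K ≤ n - 1 →
      ∀ F G : K[X], IsCoprime F G → F.natDegree ≤ d ^ ρ → G.natDegree ≤ d ^ ρ →
        (F.coeff (d ^ ρ) ≠ 0 ∨ G.coeff (d ^ ρ) ≠ 0) → ∀ x : ℕ → K, RatOrbit F G x N₂ →
        ConstConj k F G (d ^ ρ)) : ConstConj k F G d := by
  classical
  have hFG' := isRatD_map (E := Om) hFG
  have hins' : ¬ PInsep (F.map (algebraMap L Om)) (G.map (algebraMap L Om)) d :=
    fun h => hins (pInsep_of_map hd h)
  generalize hF' : F.map (algebraMap L Om) = F' at *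
  generalize hG' : G.map (algebraMap L Om) = G' at *
  have hsep2 := Pool.Agent.Helper31.DT.dt2b hM Φ z hz F' G' d hd hFG' hins' r hr1 hΦ
  have hmemz : ∀ (Ψ : M →ₐ[Om] M) (ρ : ℕ), Ψ z * aeval z (iter F' G' d ρ).2 =
      aeval z (iter F' G' d ρ).1 → Ψ z = aeval z (iter F' G' d ρ).1 / aeval z (iter F' G' d ρ).2 ∧
        Ψ z ∈ Om⟮z⟯ := by
    intro Ψ ρ h
    have h1 : aeval z (iter F' G' d ρ).2 ≠ 0 := fun h0 =>
      hz ⟨_, iter_snd_ne_zero F' G' d hd hFG' ρ, h0⟩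
    have h2 : Ψ z = aeval z (iter F' G' d ρ).1 / aeval z (iter F' G' d ρ).2 := by
      rw [← h, mul_div_cancel_right₀ _ h1]
    refine ⟨h2, ?_⟩
    rw [h2]
    exact (mem_adjoin_simple_iff Om _).2 ⟨_, _, rfl⟩
  obtain ⟨i, y₀, hi1, hiz, hy₀, hΨy, hfr, hsymm⟩ := hQ Om M hM Φ hsep2 z hz (hmemz Φ r hΦ).2
  have hiC : i ≤ C := hiz.trans hzC
  have hρ1 : 1 ≤ r * i := Nat.mul_pos hr1 hi1
  have hρC : r * i ≤ C * C := Nat.mul_le_mul hrC hiC
  have hΨz := iter_endo hz F' G' d hd hFG' Φ r hΦ i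
  obtain ⟨hΨz1, hΨz2⟩ := hmemz (Φ ^ i) (r * i) hΨz
  have hitD := isRatD_iter F' G' d hFG' (r * i)
  have hmaxdeg : max (iter F' G' d (r * i)).1.natDegree (iter F' G' d (r * i)).2.natDegree =
      d ^ (r * i) := by
    apply le_antisymm (max_le hitD.degF hitD.degG)
    rcases hitD.top with h | h
    · exact (le_natDegree_of_ne_zero h).trans (le_max_left _ _)
    · exact (le_natDegree_of_ne_zero h).trans (le_max_right _ _)
  have hrel : relfinrank Om⟮(Φ ^ i) z⟯ Om⟮z⟯ = d ^ (r * i) := by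
    rw [hΨz1, relfinrank_ratio hz hitD.cop (iter_snd_ne_zero F' G' d hd hFG' _), hmaxdeg]
  haveI := hM.finiteDimensional z hz
  have hzpos : 0 < Module.finrank Om⟮z⟯ M := Module.finrank_pos
  have hδ : Module.finrank (Φ ^ i).fieldRange M = d ^ (r * i) := by
    rw [← relfinrank_endo (Φ ^ i) z hΨz2 hzpos.ne', hrel]
  have hfr2 : Module.finrank Om⟮(Φ ^ i) z⟯ M ≤ d ^ (C * C) * C := by
    have h1 : Om⟮(Φ ^ i) z⟯ ≤ Om⟮z⟯ := by
      rw [adjoin_simple_le_iff]; exact hΨz2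
    rw [← relfinrank_mul_finrank_top h1, hrel]
    exact Nat.mul_le_mul (Nat.pow_le_pow_right (by omega) hρC) hzC
  have hfry : Module.finrank Om⟮y₀⟯ M ≤ 2 * (2 * C + d ^ (C * C) * C) + 1 := by omega
  -- the orbit of places
  have hwstep : ∀ (j l : ℕ) (h : M), (w (l + j)).val h < 1 ↔ (w l).val ((Φ ^ j) h) < 1 := by
    intro j
    induction j with
    | zero => intro l h; rfl
    | succ j ih =>
      intro l h
      have e1 : l + (j + 1) = (l + j) + 1 := by ring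
      rw [e1, hw, plc_val_lt_one, ih l (Φ h)]
      have e2 : (Φ ^ j) (Φ h) = (Φ ^ (j + 1)) h := by
        rw [pow_succ]; rfl
      rw [e2]
  choose! ext hext1 hext2 hext3 using hext
  have hinf : {e : Om | ∀ g ∈ Γ, g e = e}.Infinite := by
    haveI : Infinite k := IsAlgClosed.instInfinite
    refine Set.Infinite.mono ?_ (Set.infinite_range_of_injective (algebraMap k Om).injective)
    rintro _ ⟨a, rfl⟩ g hg
    exact hΓk g hg a
  have hN₁a : 2 * Module.finrank Om⟮y₀⟯ M ≤ N₁ := by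
    rw [hN₁]
    exact Nat.mul_le_mul (by omega) hfry
  have hN₁b : N₂ * Module.finrank Om⟮y₀⟯ M ≤ N₁ := by
    rw [hN₁]
    exact Nat.mul_le_mul (by omega) hfry
  obtain ⟨y, A, B, c, hy, hadj, hAB, hΨAB, hfix, hstep, hcfin, hcinj⟩ :=
    partC hM (Φ ^ i) y₀ hy₀ hΨy (fun l => w (l * i))
      (by
        intro l h
        have := hwstep i (l * i) h
        rwa [← Nat.succ_mul] at this)
      (hwfin.subset (by rintro _ ⟨l, rfl⟩; exact ⟨_, rfl⟩))
      N₁ N₂
      (by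
        intro a b ha hb hab
        have h1 : a * i ≤ C * N₁ := by rw [mul_comm]; exact Nat.mul_le_mul hiC ha
        have h2 : b * i ≤ C * N₁ := by rw [mul_comm]; exact Nat.mul_le_mul hiC hb
        exact Nat.eq_of_mul_eq_mul_right hi1 (hwinj _ _ h1 h2 hab))
      hN₁a hN₁b Γ hinf ext hext1 (fun g hg l h => hext3 g hg _ h)
      (by
        intro g hg
        obtain ⟨a, b, c, e, hdet, -, hgy⟩ := hsymm (ext g) g (hext1 g hg) (hext2 g hg)
        refine ⟨!![a, b; c, e], ?_, ?_⟩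
        · rw [Matrix.det_fin_two]
          simpa using hdet
        · rw [hgy]
          simp [mob])
      (by
        intro g hg u
        have : ∀ j : ℕ, ∀ u, ext g ((Φ ^ j) u) = (Φ ^ j) (ext g u) := by
          intro j
          induction j with
          | zero => intro u; rfl
          | succ j ih =>
            intro u
            have e2 : ∀ v, (Φ ^ (j + 1)) v = (Φ ^ j) (Φ v) := by
              intro v
              rw [pow_succ]; rfl
            rw [e2, e2, ih, hext2 g hg]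
        exact this i u)
  rw [hδ] at hAB
  have hcc : ConstConj k A B (d ^ (r * i)) := by
    refine partD hL t ht n hn L₀ hL₀ A B (d ^ (r * i)) N₂ hAB c ?_ ?_ ?_ hstep hcfin hcinj
      (hIH (r * i) hρ1 hρC)
    · intro j
      refine hΓ _ fun g hg => ?_
      have h1 := (hfix g hg).1
      have h2 := congrArg (fun p => Polynomial.coeff p j) h1
      simpa using h2
    · intro j
      refine hΓ _ fun g hg => ?_
      have h1 := (hfix g hg).2.1
      have h2 := congrArg (fun p => Polynomial.coeff p j) h1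
      simpa using h2
    · intro l
      exact hΓ _ fun g hg => (hfix g hg).2.2 l
  obtain ⟨q, m', n', hcorr⟩ := h8 hM (Φ ^ i) y z hy hz A B _ _ _ _ hAB hitD hΨAB hΨz
  have hδ2 : 2 ≤ d ^ (r * i) := hd.trans (Nat.le_self_pow (by omega) d)
  have hfin := Pool.Agent.Helper91.DT.dt6 (trdeg_eq_one hL) F' G' d hd hFG' A B _ hδ2 hAB hcc q m'
    n' (r * i) hρ1 hcorr
  rw [← hF', ← hG'] at hfin
  exact dt6b F G d hd hFG hfin x hx

theorem indep_of_abs_core (k : Type) [Field k] [IsAlgClosed k] (d n : ℕ) (hd : 2 ≤ d)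
    (hPA : ∀ m, PartAStmt d n m) (hQ : QuotStmt) (h8 : CorrStmt)
    (hIH : ∀ d' n' : ℕ, 2 ≤ d' → n' < n → AbsS k d' n') : Indep k d n := by
  classical
  intro m
  obtain ⟨C, hC⟩ := hPA m
  rcases Nat.eq_zero_or_pos n with hn0 | hn0
  · refine ⟨0, ?_⟩
    intro L _ _ t hL ht hsep hfin
    haveI := finiteDimensional_adjoin hL t ht
    have : 0 < Module.finrank k⟮t⟯ L := Module.finrank_pos
    omega
  have hpow : ∀ ρ : ℕ, 1 ≤ ρ → 2 ≤ d ^ ρ := fun ρ hρ =>
    hd.trans (Nat.le_self_pow (by omega) d)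
  have hAbs : ∀ ρ : ℕ, 1 ≤ ρ → AbsS k (d ^ ρ) (n - 1) := fun ρ hρ =>
    hIH (d ^ ρ) (n - 1) (hpow ρ hρ) (by omega)
  unfold AbsS at hAbs
  choose! f hf using hAbs
  obtain ⟨N₂, hN₂⟩ : ∃ N₂, ∀ ρ ≤ C * C, f ρ ≤ N₂ :=
    ⟨(Finset.range (C * C + 1)).sup f, fun ρ hρ =>
      Finset.le_sup (f := f) (Finset.mem_range.2 (by omega))⟩
  obtain ⟨N₁, hN₁⟩ : ∃ N₁, N₁ = (N₂ + 2) * (2 * (2 * C + d ^ (C * C) * C) + 1) := ⟨_, rfl⟩
  obtain ⟨N, hN⟩ := hC (C * N₁)
  refine ⟨N + 3, ?_⟩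
  intro L _ _ t hL ht hsep hfin F G hcop hF hG htop x hx τ hτ P hP hdeg hrel
  have hFG : IsRatD F G d := ⟨hcop, hF, hG, htop⟩
  by_cases hins : PInsep F G d
  · exact dt7b F G d hd hFG hins x (ratOrbit_mono hx (by omega))
  obtain ⟨L₀, Γ, M, _, _, hM, Φ, z, r, j₀, w, hL₀, hΓ, hr1, hrC, -, hz, hzC, hΦ, hw, hwfin, hwinj,
    -, hext⟩ := hN k L t hL ht hsep hfin F G hFG x (ratOrbit_mono hx (by omega)) τ hτ P hP hdeg
      (fun j hj => hrel j (by omega))
  refine core_one (Om := AlgebraicClosure L) hQ h8 hL t ht n hfin F G d hd hFG hins x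
    (ratOrbit_mono hx (by omega)) L₀ hL₀
    {g | ∃ γ ∈ Γ, g = (γ : AlgebraicClosure L ≃ₐ[k⟮t⟯] AlgebraicClosure L).toRingEquiv} ?_ ?_ hM Φ z
    r C w hr1 hrC hz hzC hΦ hw hwfin N₂ N₁ hN₁ hwinj ?_ ?_
  · intro a ha
    exact hΓ a fun g hg => ha _ ⟨g, hg, rfl⟩
  · rintro _ ⟨g, hg, rfl⟩ a
    change g (algebraMap k (AlgebraicClosure L) a) = _
    have h1 : algebraMap k (AlgebraicClosure L) a =
        algebraMap k⟮t⟯ (AlgebraicClosure L) (algebraMap k k⟮t⟯ a) := by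
      rw [← IsScalarTower.algebraMap_apply]
    rw [h1]
    exact g.commutes _
  · rintro _ ⟨g, hg, rfl⟩
    exact hext g hg
  · intro ρ hρ1 hρC K _ _ s hK hs hsepK hfinK F₁ G₁ h1 h2 h3 h4 x₁ hx₁
    exact hf ρ hρ1 K s hK hs hsepK hfinK F₁ G₁ h1 h2 h3 h4 x₁ (ratOrbit_mono hx₁ (hN₂ ρ hρC))

theorem quotStmt : QuotStmt := by
  intro k M _ _ _ _ hM phi hsep h hh hphi
  exact rational_quotient hM phi hsep h hh hphi

theorem corrStmt : CorrStmt := by
  intro E M _ _ _ _ hM Ψ y z hy hz A B U W δ e hAB hUW h1 h2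
  exact Pool.Agent.Helper36.DT.dt8 hM Ψ y z hy hz A B U W δ e hAB hUW h1 h2

theorem indep_of_partA (k : Type) [Field k] [IsAlgClosed k] (d n : ℕ) (hd : 2 ≤ d)
    (hPA : ∀ m, PartAStmt d n m) (hIH : ∀ d' n' : ℕ, 2 ≤ d' → n' < n → AbsS k d' n') :
    Indep k d n :=
  indep_of_abs_core k d n hd hPA quotStmt corrStmt hIH

end Pool.Agent.Helper38.DT
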