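import Pool.Agent.Helper38.DT.Val

/-!
# Moebius transformations and a normalised coordinate
-/

set_option autoImplicit false
set_option linter.style.haveILetI false

namespace Pool.Agent.Helper38.DT

open Polynomial IntermediateField Pool.Agent.Helper16

section mob

variable {E M : Type} [Field E] [Field M] [Algebra E M]

/-- the Moebius transformation attached to a matrix -/
noncomputable def mob (A : Matrix (Fin 2) (Fin 2) E) (y : M) : M :=
  (algebraMap E M (A 0 0) * y + algebraMap E M (A 0 1)) /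
    (algebraMap E M (A 1 0) * y + algebraMap E M (A 1 1))

theorem lin_ne_zero {y : M} (hy : Transcendental E y) {a b : E} (h : a ≠ 0 ∨ b ≠ 0) :
    algebraMap E M a * y + algebraMap E M b ≠ 0 := by
  intro h0
  refine hy ⟨C a * X + C b, ?_, ?_⟩
  · intro h1
    have h2 := congrArg (fun p => Polynomial.coeff p 1) h1
    have h3 := congrArg (fun p => Polynomial.coeff p 0) h1
    simp at h2 h3
    rcases h with h | h
    · exact h h2
    · exact h h3
  · simpa using h0

theorem det_row {A : Matrix (Fin 2) (Fin 2) E} (hA : A.det ≠ 0) (i : Fin 2) :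
    A i 0 ≠ 0 ∨ A i 1 ≠ 0 := by
  by_contra hcon
  push Not at hcon
  apply hA
  rw [Matrix.det_fin_two]
  fin_cases i
  · simp only [Fin.zero_eta, Fin.isValue] at hcon
    rw [hcon.1, hcon.2]; ring
  · simp only [Fin.mk_one, Fin.isValue] at hcon
    rw [hcon.1, hcon.2]; ring

theorem mob_mul {y : M} (hy : Transcendental E y) {A B : Matrix (Fin 2) (Fin 2) E}
    (hA : A.det ≠ 0) (hB : B.det ≠ 0) : mob A (mob B y) = mob (A * B) y := by
  have hAB : (A * B).det ≠ 0 := by rw [Matrix.det_mul]; exact mul_ne_zero hA hB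
  have h1 := lin_ne_zero hy (det_row hB 1)
  have h2 := lin_ne_zero hy (det_row hAB 1)
  have h3 : (algebraMap E M (A 1 0) * mob B y + algebraMap E M (A 1 1)) *
      (algebraMap E M (B 1 0) * y + algebraMap E M (B 1 1)) =
      algebraMap E M ((A * B) 1 0) * y + algebraMap E M ((A * B) 1 1) := by
    unfold mob
    rw [Matrix.mul_apply, Matrix.mul_apply, Fin.sum_univ_two, Fin.sum_univ_two, add_mul, mul_assoc,
      div_mul_cancel₀ _ h1]
    simp only [map_add, map_mul]
    ring
  have h4 : (algebraMap E M (A 0 0) * mob B y + algebraMap E M (A 0 1)) *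
      (algebraMap E M (B 1 0) * y + algebraMap E M (B 1 1)) =
      algebraMap E M ((A * B) 0 0) * y + algebraMap E M ((A * B) 0 1) := by
    unfold mob
    rw [Matrix.mul_apply, Matrix.mul_apply, Fin.sum_univ_two, Fin.sum_univ_two, add_mul, mul_assoc,
      div_mul_cancel₀ _ h1]
    simp only [map_add, map_mul]
    ring
  conv_rhs => unfold mob
  rw [← h3, ← h4, mul_div_mul_right _ _ h1]
  rfl

theorem mob_one (y : M) : mob (1 : Matrix (Fin 2) (Fin 2) E) y = y := by
  simp [mob]

theorem mob_inv {y : M} (hy : Transcendental E y) {A : Matrix (Fin 2) (Fin 2) E}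
    (hA : A.det ≠ 0) : mob A⁻¹ (mob A y) = y := by
  have hu : IsUnit A.det := isUnit_iff_ne_zero.2 hA
  have hA' : (A⁻¹).det ≠ 0 := by
    rw [Matrix.det_nonsing_inv, Ring.inverse_eq_inv']
    exact inv_ne_zero hA
  rw [mob_mul hy hA' hA, Matrix.nonsing_inv_mul _ hu, mob_one]

theorem mob_mem (A : Matrix (Fin 2) (Fin 2) E) (y : M) : mob A y ∈ E⟮y⟯ := by
  have h0 := mem_adjoin_simple_self E y
  exact div_mem (add_mem (mul_mem (IntermediateField.algebraMap_mem _ _) h0)
    (IntermediateField.algebraMap_mem _ _)) (add_mem (mul_mem (IntermediateField.algebraMap_mem _ _)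
      h0) (IntermediateField.algebraMap_mem _ _))

theorem adjoin_mob {y : M} (hy : Transcendental E y) {A : Matrix (Fin 2) (Fin 2) E}
    (hA : A.det ≠ 0) : E⟮mob A y⟯ = E⟮y⟯ := by
  apply le_antisymm
  · rw [adjoin_simple_le_iff]
    exact mob_mem A y
  · rw [adjoin_simple_le_iff]
    have := mob_mem A⁻¹ (mob A y)
    rwa [mob_inv hy hA] at this

theorem transcendental_of_adjoin_eq {y y' : M} (hy : Transcendental E y) (h : E⟮y'⟯ = E⟮y⟯) :
    Transcendental E y' := by
  intro halg
  have h1 : y ∈ E⟮y'⟯ := by rw [h]; exact mem_adjoin_simple_self E y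
  haveI : Algebra.IsAlgebraic E E⟮y'⟯ := isAlgebraic_adjoin_simple halg.isIntegral
  have h2 := Algebra.IsAlgebraic.isAlgebraic (R := E) (⟨y, h1⟩ : E⟮y'⟯)
  exact hy ((isAlgebraic_iff (S := E⟮y'⟯)).1 h2)

theorem transcendental_mob {y : M} (hy : Transcendental E y) {A : Matrix (Fin 2) (Fin 2) E}
    (hA : A.det ≠ 0) : Transcendental E (mob A y) :=
  transcendental_of_adjoin_eq hy (adjoin_mob hy hA)

theorem map_mob (γ : M ≃+* M) (g : E ≃+* E)
    (hγ : ∀ c, γ (algebraMap E M c) = algebraMap E M (g c)) (A : Matrix (Fin 2) (Fin 2) E) (y : M) :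
    γ (mob A y) = mob (A.map g) (γ y) := by
  unfold mob
  rw [map_div₀, map_add, map_add, map_mul, map_mul, hγ, hγ, hγ, hγ]
  rfl

theorem HasVal.mob {w : Place E M} {y : M} {b : E} (h : HasVal w y b)
    (A : Matrix (Fin 2) (Fin 2) E) (hb : A 1 0 * b + A 1 1 ≠ 0) :
    HasVal w (mob A y) ((A 0 0 * b + A 0 1) / (A 1 0 * b + A 1 1)) :=
  (((hasVal_const w _).mul h).add (hasVal_const w _)).div
    (((hasVal_const w _).mul h).add (hasVal_const w _)) hb

/-- A Moebius transformation with three fixed values is the identity. -/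
theorem mob_eq_self {y : M} (hy : Transcendental E y) {A : Matrix (Fin 2) (Fin 2) E}
    (hA : A.det ≠ 0) (w : Fin 3 → Place E M) (c : Fin 3 → E) (hc : Function.Injective c)
    (h1 : ∀ i, HasVal (w i) y (c i)) (h2 : ∀ i, HasVal (w i) (mob A y) (c i)) : mob A y = y := by
  have h3 : ∀ i, A 0 0 * c i + A 0 1 = c i * (A 1 0 * c i + A 1 1) := by
    intro i
    have h4 : mob A y * (algebraMap E M (A 1 0) * y + algebraMap E M (A 1 1)) =
        algebraMap E M (A 0 0) * y + algebraMap E M (A 0 1) :=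
      div_mul_cancel₀ _ (lin_ne_zero hy (det_row hA 1))
    have h5 := (h2 i).mul (((hasVal_const (w i) (A 1 0)).mul (h1 i)).add (hasVal_const (w i) (A 1 1)))
    rw [h4] at h5
    exact (((hasVal_const (w i) (A 0 0)).mul (h1 i)).add (hasVal_const (w i) (A 0 1))).unique h5
  have h01 : c 0 - c 1 ≠ 0 := sub_ne_zero.2 fun h => by simpa using hc h
  have h02 : c 0 - c 2 ≠ 0 := sub_ne_zero.2 fun h => by simpa using hc h
  have h12 : c 1 - c 2 ≠ 0 := sub_ne_zero.2 fun h => by simpa using hc h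
  have e0 := h3 0
  have e1 := h3 1
  have e2 := h3 2
  have f1 : A 0 0 = A 1 0 * (c 0 + c 1) + A 1 1 := by
    apply mul_right_cancel₀ h01
    linear_combination e0 - e1
  have f2 : A 0 0 = A 1 0 * (c 0 + c 2) + A 1 1 := by
    apply mul_right_cancel₀ h02
    linear_combination e0 - e2
  have g1 : A 1 0 = 0 := by
    apply mul_right_cancel₀ h12
    linear_combination f2 - f1
  have g2 : A 0 0 = A 1 1 := by rw [f1, g1]; ring
  have g3 : A 0 1 = 0 := by
    have := e0
    rw [g1, g2] at this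
    linear_combination this
  have g4 : A 1 1 ≠ 0 := by
    intro h
    apply hA
    rw [Matrix.det_fin_two, g2, h, g1]; ring
  have g4' : algebraMap E M (A 1 1) ≠ 0 := by simpa using g4
  unfold mob
  rw [g1, g2, g3]
  simp only [map_zero, zero_mul, zero_add, add_zero]
  exact mul_div_cancel_left₀ _ g4'

/-- **The normalised coordinate.** -/
theorem exists_coordinate [IsAlgClosed E] (hM : IsFunctionField E M) (y₀ : M)
    (hy₀ : Transcendental E y₀) (S : Set (Place E M)) (hS : S.Finite)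
    (hcard : 2 * Module.finrank E⟮y₀⟯ M < S.ncard) (Γ : Set (E ≃+* E))
    (hinf : {e : E | ∀ g ∈ Γ, g e = e}.Infinite) (ext : (E ≃+* E) → (M ≃+* M))
    (h1 : ∀ g ∈ Γ, ∀ c, ext g (algebraMap E M c) = algebraMap E M (g c))
    (h2 : ∀ g ∈ Γ, ∀ w ∈ S, ∀ h, w.val (ext g h) = w.val h)
    (h3 : ∀ g ∈ Γ, ∃ A : Matrix (Fin 2) (Fin 2) E, A.det ≠ 0 ∧ ext g y₀ = mob A y₀) :
    ∃ y : M, Transcendental E y ∧ E⟮y⟯ = E⟮y₀⟯ ∧ (∀ g ∈ Γ, ext g y = y) ∧
      ∀ w ∈ S, ∃ c : E, HasVal w y c ∧ ∀ g ∈ Γ, g c = c := by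
  classical
  haveI : Infinite E := IsAlgClosed.instInfinite
  -- step 0 : all values finite
  have hfin0 : {κ : E | ∃ w ∈ S, HasVal w y₀ κ}.Finite := by
    have : {κ : E | ∃ w ∈ S, HasVal w y₀ κ} = ⋃ w ∈ S, {κ : E | HasVal w y₀ κ} := by
      ext κ; simp
    rw [this]
    refine hS.biUnion fun w _ => Set.Subsingleton.finite ?_
    intro a ha b hb
    exact HasVal.unique ha hb
  obtain ⟨κ₀, hκ₀⟩ := hfin0.exists_notMem
  let T₀ : Matrix (Fin 2) (Fin 2) E := !![0, 1; 1, -κ₀]
  have hT₀ : T₀.det ≠ 0 := by simp [T₀, Matrix.det_fin_two]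
  have hv₀ : ∀ w ∈ S, ∃ b, HasVal w (mob T₀ y₀) b := by
    intro w hw
    by_cases hle : w.val y₀ ≤ 1
    · obtain ⟨b, hb⟩ := Pool.Agent.Helper45.S4.exists_res_val hM w y₀ hle
      have hb' : HasVal w y₀ b := hb
      refine ⟨_, hb'.mob T₀ ?_⟩
      simp only [T₀, Matrix.of_apply, Matrix.cons_val', Matrix.cons_val_zero, Matrix.cons_val_one,
        Matrix.cons_val_fin_one]
      intro h0
      apply hκ₀
      refine ⟨w, hw, ?_⟩
      have : κ₀ = b := by linear_combination -h0
      rwa [this]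
    · rw [not_le] at hle
      refine ⟨0, ?_⟩
      unfold HasVal mob
      simp only [T₀, Matrix.of_apply, Matrix.cons_val', Matrix.cons_val_zero, Matrix.cons_val_one,
        Matrix.cons_val_fin_one]
      rw [map_zero, sub_zero, zero_mul, zero_add, map_one, one_mul, map_neg, map_div₀, map_one,
        one_div]
      have h4 : w.val (y₀ + -(algebraMap E M κ₀)) = w.val y₀ := by
        apply Valuation.map_add_eq_of_lt_left
        rw [Valuation.map_neg]
        exact lt_of_le_of_lt (val_const_le w κ₀) hle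
      rw [h4]
      exact inv_lt_one_of_one_lt₀ hle
  choose! b hb using hv₀
  set y₁ := mob T₀ y₀ with hy₁def
  have hy₁ : Transcendental E y₁ := transcendental_mob hy₀ hT₀
  have hadj₁ : E⟮y₁⟯ = E⟮y₀⟯ := adjoin_mob hy₀ hT₀
  -- step 1 : three different values
  have hthree : ∃ w : Fin 3 → Place E M, (∀ i, w i ∈ S) ∧ Function.Injective (fun i => b (w i)) := by
    set V : Finset E := hS.toFinset.image b with hV
    have hcardV : 2 < V.card := by
      by_contra hcon
      rw [not_lt] at hcon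
      have hsub : hS.toFinset ⊆ V.biUnion fun c =>
          (ncard_hasVal_le hM y₁ hy₁ c).1.toFinset := by
        intro w hw
        rw [Finset.mem_biUnion]
        refine ⟨b w, Finset.mem_image_of_mem _ hw, ?_⟩
        rw [Set.Finite.mem_toFinset]
        exact hb w (hS.mem_toFinset.1 hw)
      have h5 := Finset.card_le_card hsub
      have h6 : (V.biUnion fun c => (ncard_hasVal_le hM y₁ hy₁ c).1.toFinset).card ≤
          V.card * Module.finrank E⟮y₀⟯ M := by
        refine Finset.card_biUnion_le_card_mul _ _ _ fun c _ => ?_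
        rw [← Set.ncard_eq_toFinset_card _ (ncard_hasVal_le hM y₁ hy₁ c).1, ← hadj₁]
        exact (ncard_hasVal_le hM y₁ hy₁ c).2
      rw [← Set.ncard_eq_toFinset_card S hS] at h5
      have h7 : V.card * Module.finrank E⟮y₀⟯ M ≤ 2 * Module.finrank E⟮y₀⟯ M :=
        Nat.mul_le_mul_right _ hcon
      omega
    obtain ⟨e0, e1, e2, he0, he1, he2, h01, h02, h12⟩ := Finset.two_lt_card_iff.1 hcardV
    rw [hV, Finset.mem_image] at he0 he1 he2
    obtain ⟨w0, hw0, rfl⟩ := he0
    obtain ⟨w1, hw1, rfl⟩ := he1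
    obtain ⟨w2, hw2, rfl⟩ := he2
    rw [Set.Finite.mem_toFinset] at hw0 hw1 hw2
    refine ⟨![w0, w1, w2], ?_, ?_⟩
    · intro i
      fin_cases i
      · exact hw0
      · exact hw1
      · exact hw2
    · intro i j hij
      fin_cases i <;> fin_cases j <;> simp_all
  obtain ⟨w, hwS, hwb⟩ := hthree
  have h01 : b (w 0) - b (w 1) ≠ 0 := sub_ne_zero.2 fun h => by simpa using hwb h
  have h02 : b (w 0) - b (w 2) ≠ 0 := sub_ne_zero.2 fun h => by simpa using hwb h
  have h12 : b (w 1) - b (w 2) ≠ 0 := sub_ne_zero.2 fun h => by simpa using hwb h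
  set b0 := b (w 0) with hb0
  set b1 := b (w 1) with hb1
  set b2 := b (w 2) with hb2
  -- `κ` avoids the values of the cross ratio
  have hfin1 : {κ : E | ∃ v ∈ S, (b v - b0) * (b1 - b2) = κ * ((b v - b2) * (b1 - b0))}.Finite := by
    have : {κ : E | ∃ v ∈ S, (b v - b0) * (b1 - b2) = κ * ((b v - b2) * (b1 - b0))} =
        ⋃ v ∈ S, {κ : E | (b v - b0) * (b1 - b2) = κ * ((b v - b2) * (b1 - b0))} := by
      ext κ; simp
    rw [this]
    refine hS.biUnion fun v _ => Set.Subsingleton.finite ?_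
    intro a ha c hc
    simp only [Set.mem_ofPred_eq] at ha hc
    by_contra hne
    have h8 : (a - c) * ((b v - b2) * (b1 - b0)) = 0 := by linear_combination hc - ha
    rcases mul_eq_zero.1 h8 with h9 | h9
    · exact hne (sub_eq_zero.1 h9)
    · rcases mul_eq_zero.1 h9 with h10 | h10
      · have h11 : b v = b2 := sub_eq_zero.1 h10
        rw [h11] at ha
        have h12' : (b2 - b0) * (b1 - b2) = 0 := by rw [ha]; ring
        rcases mul_eq_zero.1 h12' with h13 | h13
        · exact h02 (by linear_combination -h13)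
        · exact h12 h13
      · exact h01 (by linear_combination -h10)
  obtain ⟨κ, hκfix, hκ⟩ := hinf.exists_notMem_finite hfin1
  -- the matrix: `y = ((y₁ - b2)(b1 - b0)) / ((y₁ - b0)(b1 - b2) - κ (y₁ - b2)(b1 - b0))`
  let T : Matrix (Fin 2) (Fin 2) E := !![(b1 - b0), -(b2 * (b1 - b0));
    (b1 - b2) - κ * (b1 - b0), -(b0 * (b1 - b2)) + κ * (b2 * (b1 - b0))]
  have hTdet : T.det ≠ 0 := by
    have : T.det = (b1 - b0) * (b1 - b2) * (b2 - b0) := by
      simp only [T, Matrix.det_fin_two, Matrix.of_apply, Matrix.cons_val', Matrix.cons_val_zero,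
        Matrix.cons_val_one, Matrix.cons_val_fin_one]
      ring
    rw [this]
    refine mul_ne_zero (mul_ne_zero ?_ h12) ?_
    · intro h; exact h01 (by linear_combination -h)
    · intro h; exact h02 (by linear_combination -h)
  have hden : ∀ v ∈ S, T 1 0 * b v + T 1 1 ≠ 0 := by
    intro v hv h0
    apply hκ
    refine ⟨v, hv, ?_⟩
    simp only [T, Matrix.of_apply, Matrix.cons_val', Matrix.cons_val_zero,
        Matrix.cons_val_one, Matrix.cons_val_fin_one] at h0
    linear_combination h0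
  have hvalT : ∀ v ∈ S, HasVal v (mob T y₁) ((T 0 0 * b v + T 0 1) / (T 1 0 * b v + T 1 1)) :=
    fun v hv => (hb v hv).mob T (hden v hv)
  set y := mob T y₁ with hydef
  have hy : Transcendental E y := transcendental_mob hy₁ hTdet
  have hadj : E⟮y⟯ = E⟮y₀⟯ := (adjoin_mob hy₁ hTdet).trans hadj₁
  -- the symmetries transport values
  have htr : ∀ g ∈ Γ, ∀ v ∈ S, ∀ (u : M) (e : E), HasVal v u e → HasVal v (ext g u) (g e) := by
    intro g hg v hv u e hue
    unfold HasVal at *
    rw [← h1 g hg, ← map_sub, h2 g hg v hv]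
    exact hue
  -- the three values
  have hκ0 : κ ≠ 0 := by
    rintro rfl
    exact hκ ⟨w 0, hwS 0, by rw [← hb0]; ring⟩
  have hκ1 : 1 - κ ≠ 0 := by
    intro h
    have : κ = 1 := by linear_combination -h
    subst this
    exact hκ ⟨w 1, hwS 1, by rw [← hb1]; ring⟩
  have h10 : b1 - b0 ≠ 0 := fun h => h01 (by linear_combination -h)
  have h20 : b2 - b0 ≠ 0 := fun h => h02 (by linear_combination -h)
  let c : Fin 3 → E := ![-κ⁻¹, (1 - κ)⁻¹, 0]
  have hc : Function.Injective c := by
    have e01 : (-κ⁻¹ : E) ≠ (1 - κ)⁻¹ := by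
      intro h
      have h5 : (κ : E) * (1 - κ) * (-κ⁻¹) = κ * (1 - κ) * (1 - κ)⁻¹ := by rw [h]
      have h6 : (κ : E) * (1 - κ) * (-κ⁻¹) = -(1 - κ) := by field_simp
      have h7 : (κ : E) * (1 - κ) * (1 - κ)⁻¹ = κ := by field_simp
      rw [h6, h7] at h5
      have : (1 : E) = 0 := by linear_combination -h5
      exact one_ne_zero this
    have e02 : (-κ⁻¹ : E) ≠ 0 := neg_ne_zero.2 (inv_ne_zero hκ0)
    have e12 : ((1 - κ)⁻¹ : E) ≠ 0 := inv_ne_zero hκ1
    intro i j hij
    fin_cases i <;> fin_cases j <;> simp [c] at hij ⊢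
    all_goals first
      | exact e01 hij
      | exact e01 hij.symm
      | exact hκ0 hij
      | exact hκ0 hij.symm
      | exact hκ1 hij
      | exact hκ1 hij.symm
  have hcval : ∀ i, HasVal (w i) y (c i) := by
    intro i
    have h5 := hvalT (w i) (hwS i)
    have h6 : (T 0 0 * b (w i) + T 0 1) / (T 1 0 * b (w i) + T 1 1) = c i := by
      rw [div_eq_iff (hden (w i) (hwS i))]
      simp only [T, Matrix.of_apply, Matrix.cons_val', Matrix.cons_val_zero,
        Matrix.cons_val_one, Matrix.cons_val_fin_one]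
      fin_cases i
      · simp only [c, Fin.zero_eta, Matrix.cons_val_zero, ← hb0]
        field_simp
        ring
      · simp only [c, Fin.mk_one, Matrix.cons_val_one, Matrix.cons_val_zero, ← hb1]
        field_simp
        ring
      · simp only [c, Fin.reduceFinMk, Matrix.cons_val, ← hb2]
        ring
    rwa [h6] at h5
  have hgc : ∀ g ∈ Γ, ∀ i, g (c i) = c i := by
    intro g hg i
    have hgκ := hκfix g hg
    fin_cases i
    · simp [c, hgκ]
    · simp [c, hgκ]
    · simp [c]
  have hfix : ∀ g ∈ Γ, ext g y = y := by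
    intro g hg
    obtain ⟨A, hA, hAy⟩ := h3 g hg
    have hdm : ∀ B : Matrix (Fin 2) (Fin 2) E, B.det ≠ 0 → (B.map g).det ≠ 0 := by
      intro B hB
      have : (B.map g).det = g B.det := by
        simp [Matrix.det_fin_two]
      rw [this]
      simpa using hB
    have hm1 : ext g y₁ = mob (T₀.map g * A) y₀ := by
      rw [hy₁def, map_mob (ext g) g (h1 g hg), hAy, mob_mul hy₀ (hdm _ hT₀) hA]
    have hdet1 : (T₀.map g * A).det ≠ 0 := by
      rw [Matrix.det_mul]; exact mul_ne_zero (hdm _ hT₀) hA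
    have hm2 : ext g y = mob (T.map g * (T₀.map g * A)) y₀ := by
      rw [hydef, map_mob (ext g) g (h1 g hg), hm1, mob_mul hy₀ (hdm _ hTdet) hdet1]
    have hdet2 : (T.map g * (T₀.map g * A)).det ≠ 0 := by
      rw [Matrix.det_mul]; exact mul_ne_zero (hdm _ hTdet) hdet1
    have hTT : (T * T₀).det ≠ 0 := by
      rw [Matrix.det_mul]; exact mul_ne_zero hTdet hT₀
    have hy0y : y₀ = mob (T * T₀)⁻¹ y := by
      rw [hydef, hy₁def, mob_mul hy₀ hTdet hT₀, mob_inv hy₀ hTT]
    have hdet3 : ((T * T₀)⁻¹).det ≠ 0 := by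
      rw [Matrix.det_nonsing_inv, Ring.inverse_eq_inv']
      exact inv_ne_zero hTT
    have hm3 : ext g y = mob ((T.map g * (T₀.map g * A)) * (T * T₀)⁻¹) y := by
      rw [hm2]
      conv_lhs => rw [hy0y]
      rw [mob_mul hy hdet2 hdet3]
    have hdet4 : ((T.map g * (T₀.map g * A)) * (T * T₀)⁻¹).det ≠ 0 := by
      rw [Matrix.det_mul]; exact mul_ne_zero hdet2 hdet3
    rw [hm3]
    refine mob_eq_self hy hdet4 w c hc hcval ?_
    intro i
    rw [← hm3]
    have := htr g hg (w i) (hwS i) y (c i) (hcval i)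
    rwa [hgc g hg i] at this
  refine ⟨y, hy, hadj, hfix, ?_⟩
  intro v hv
  refine ⟨_, hvalT v hv, ?_⟩
  intro g hg
  have h5 := htr g hg v hv y _ (hvalT v hv)
  rw [hfix g hg] at h5
  exact h5.unique (hvalT v hv)

end mob

end Pool.Agent.Helper38.DT
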