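import Mathlib
import Pool.Agent.Helper38.DT.Defs

/-!
# Elements of `E(y)` as quotients of coprime polynomials
-/

set_option autoImplicit false

namespace Pool.Agent.Helper38.DT

open Polynomial IntermediateField

section ratio

variable {E M : Type} [Field E] [Field M] [Algebra E M]

theorem aeval_ne_zero {y : M} (hy : Transcendental E y) {A : E[X]} (hA : A ≠ 0) : aeval y A ≠ 0 :=
  fun h => hy ⟨A, hA, h⟩

theorem aeval_inj {y : M} (hy : Transcendental E y) {A B : E[X]} (h : aeval y A = aeval y B) :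
    A = B := by
  by_contra hne
  exact aeval_ne_zero hy (sub_ne_zero.2 hne) (by rw [map_sub, h, sub_self])

theorem exists_ratio {y : M} (hy : Transcendental E y) {u : M} (hu : u ∈ E⟮y⟯) :
    ∃ A B : E[X], IsCoprime A B ∧ B.Monic ∧ u * aeval y B = aeval y A := by
  classical
  obtain ⟨r, s, hrs⟩ := (mem_adjoin_simple_iff E u).1 hu
  by_cases hs : s = 0
  · refine ⟨0, 1, isCoprime_zero_left.2 isUnit_one, monic_one, ?_⟩
    rw [hrs, hs]
    simp
  set g := EuclideanDomain.gcd r s with hg
  have hg0 : g ≠ 0 := by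
    intro h0
    rw [hg, EuclideanDomain.gcd_eq_zero_iff] at h0
    exact hs h0.2
  obtain ⟨r', hr'⟩ := EuclideanDomain.gcd_dvd_left r s
  obtain ⟨s', hs'⟩ := EuclideanDomain.gcd_dvd_right r s
  rw [← hg] at hr' hs'
  have hs'0 : s' ≠ 0 := by
    rintro rfl
    exact hs (by rw [hs', mul_zero])
  have hcop : IsCoprime r' s' := by
    obtain h := EuclideanDomain.gcd_eq_gcd_ab r s
    rw [← hg] at h
    refine ⟨EuclideanDomain.gcdA r s, EuclideanDomain.gcdB r s, ?_⟩
    apply mul_left_cancel₀ hg0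
    calc g * (EuclideanDomain.gcdA r s * r' + EuclideanDomain.gcdB r s * s')
        = (g * r') * EuclideanDomain.gcdA r s + (g * s') * EuclideanDomain.gcdB r s := by ring
      _ = g * 1 := by rw [← hr', ← hs', ← h, mul_one]
  have hl : s'.leadingCoeff ≠ 0 := leadingCoeff_ne_zero.2 hs'0
  refine ⟨C s'.leadingCoeff⁻¹ * r', C s'.leadingCoeff⁻¹ * s', ?_, ?_, ?_⟩
  · exact (isCoprime_mul_unit_left (isUnit_C.2 (isUnit_iff_ne_zero.2 (inv_ne_zero hl))) r' s').2
      hcop
  · rw [Monic.def, leadingCoeff_mul, leadingCoeff_C, inv_mul_cancel₀ hl]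
  · have h1 : u * aeval y s = aeval y r := by
      rw [hrs, div_mul_cancel₀ _ (aeval_ne_zero hy hs)]
    rw [hr', hs', map_mul, map_mul] at h1
    have h2 : u * aeval y s' = aeval y r' := by
      apply mul_left_cancel₀ (aeval_ne_zero hy hg0)
      rw [← h1]
      ring
    rw [map_mul, map_mul, ← h2]
    ring

theorem ratio_unique {y : M} (hy : Transcendental E y) {A B A' B' : E[X]} (h : IsCoprime A B)
    (h' : IsCoprime A' B') (hB : B.Monic) (hB' : B'.Monic)
    (he : aeval y A * aeval y B' = aeval y A' * aeval y B) : A = A' ∧ B = B' := by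
  rw [← map_mul, ← map_mul] at he
  have he' := aeval_inj hy he
  have h1 : B ∣ B' := h.symm.dvd_of_dvd_mul_left (by rw [he']; exact dvd_mul_left _ _)
  have h2 : B' ∣ B := h'.symm.dvd_of_dvd_mul_left (by rw [← he']; exact dvd_mul_left _ _)
  have h3 : B = B' := eq_of_monic_of_associated hB hB' (associated_of_dvd_dvd h1 h2)
  refine ⟨?_, h3⟩
  rw [h3] at he'
  exact mul_right_cancel₀ hB'.ne_zero he'

end ratio

end Pool.Agent.Helper38.DT
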