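import Mathlib
import Pool.Agent.Helper38.DT.Defs

/-!
# Degrees of rational functions and of endomorphisms
-/

set_option autoImplicit false

namespace Pool.Agent.Helper38.DT

open Polynomial IntermediateField

section deg

variable {E M : Type} [Field E] [Field M] [Algebra E M]

/-- the homomorphism `E(X) → M` sending `X` to a transcendental element -/
noncomputable def evRat {y : M} (hy : Transcendental E y) : RatFunc E →ₐ[E] M :=
  RatFunc.liftAlgHom (aeval y) (by
    intro p hp
    rw [Submonoid.mem_comap]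
    refine mem_nonZeroDivisors_of_ne_zero ?_
    intro h0
    exact hy ⟨p, nonZeroDivisors.ne_zero hp, h0⟩)

theorem evRat_div {y : M} (hy : Transcendental E y) (A B : E[X]) :
    evRat hy (algebraMap E[X] (RatFunc E) A / algebraMap E[X] (RatFunc E) B) =
      aeval y A / aeval y B := by
  unfold evRat
  rw [RatFunc.liftAlgHom_apply_div]

theorem evRat_X {y : M} (hy : Transcendental E y) : evRat hy RatFunc.X = y := by
  have := evRat_div hy (X : E[X]) 1
  simpa using this

theorem map_adjoin_evRat {y : M} (hy : Transcendental E y) (f : RatFunc E) :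
    (E⟮f⟯).map (evRat hy) = E⟮evRat hy f⟯ := by
  rw [IntermediateField.adjoin_map, Set.image_singleton]

theorem top_map_evRat {y : M} (hy : Transcendental E y) :
    (⊤ : IntermediateField E (RatFunc E)).map (evRat hy) = E⟮y⟯ := by
  rw [← RatFunc.adjoin_X, map_adjoin_evRat, evRat_X]

/-- the degree of `E(y)` over `E(A(y)/B(y))` -/
theorem relfinrank_ratio {y : M} (hy : Transcendental E y) {A B : E[X]} (hAB : IsCoprime A B)
    (hB : B ≠ 0) :
    relfinrank E⟮aeval y A / aeval y B⟯ E⟮y⟯ = max A.natDegree B.natDegree := by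
  rw [← evRat_div hy, ← map_adjoin_evRat hy, ← top_map_evRat hy, relfinrank_map_map,
    relfinrank_top_right]
  rw [RatFunc.finrank_eq_max_natDegree]
  set f : RatFunc E := algebraMap E[X] (RatFunc E) A / algebraMap E[X] (RatFunc E) B with hf
  have hB' : algebraMap E[X] (RatFunc E) B ≠ 0 := by
    simpa using hB
  have hd0 : algebraMap E[X] (RatFunc E) f.denom ≠ 0 := by
    simpa using f.denom_ne_zero
  have h1 : f.num * B = A * f.denom := by
    have h2 := f.num_div_denom
    rw [hf, ← hf, div_eq_div_iff hd0 hB', ← map_mul, ← map_mul] at h2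
    exact (IsFractionRing.injective E[X] (RatFunc E)) h2
  have h3 : f.denom ∣ B := RatFunc.denom_div_dvd A B
  have h4 : B ∣ f.denom := hAB.symm.dvd_of_dvd_mul_left (by rw [← h1]; exact dvd_mul_left _ _)
  have h5 : A ∣ f.num := hAB.dvd_of_dvd_mul_right (by rw [h1]; exact dvd_mul_right _ _)
  have h6 : f.num ∣ A := f.isCoprime_num_denom.dvd_of_dvd_mul_right (by rw [← h1]; exact dvd_mul_right _ _)
  rw [natDegree_eq_of_degree_eq (degree_eq_degree_of_associated (associated_of_dvd_dvd h3 h4)),
    natDegree_eq_of_degree_eq (degree_eq_degree_of_associated (associated_of_dvd_dvd h6 h5))]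

/-- the degree of an endomorphism is computed on any rational subfield of finite index which it
preserves -/
theorem relfinrank_endo (Ψ : M →ₐ[E] M) (y : M) (hy : Ψ y ∈ E⟮y⟯)
    (hfin : Module.finrank E⟮y⟯ M ≠ 0) :
    relfinrank E⟮Ψ y⟯ E⟮y⟯ = Module.finrank Ψ.fieldRange M := by
  have h1 : E⟮Ψ y⟯ ≤ E⟮y⟯ := by
    rw [adjoin_simple_le_iff]
    exact hy
  have h2 := relfinrank_mul_finrank_top h1
  have h3 : E⟮Ψ y⟯ = (E⟮y⟯).map Ψ := by
    rw [IntermediateField.adjoin_map, Set.image_singleton]
  have h4 : E⟮Ψ y⟯ ≤ Ψ.fieldRange := by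
    rw [adjoin_simple_le_iff]
    exact ⟨y, rfl⟩
  have h5 := relfinrank_mul_finrank_top h4
  have h6 : relfinrank E⟮Ψ y⟯ Ψ.fieldRange = Module.finrank E⟮y⟯ M := by
    rw [h3, AlgHom.fieldRange_eq_map, relfinrank_map_map, relfinrank_top_right]
  rw [h6] at h5
  rw [← h5, mul_comm] at h2
  exact Nat.eq_of_mul_eq_mul_left (Nat.pos_of_ne_zero hfin) h2

end deg

end Pool.Agent.Helper38.DT
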