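import Pool.Agent.Helper38.DT.Mob
import Pool.Agent.Helper38.DT.RelDeg
import Pool.Agent.Helper38.DT.Ratio

/-!
# The descended rational map
-/

set_option autoImplicit false
set_option linter.style.haveILetI false

namespace Pool.Agent.Helper38.DT

open Polynomial IntermediateField Pool.Agent.Helper16

section partC

variable {E M : Type} [Field E] [Field M] [Algebra E M]

theorem isRatD_max {A B : E[X]} (h : IsCoprime A B) (hA : A ≠ 0) (hB : B ≠ 0) {δ : ℕ}
    (hδ : max A.natDegree B.natDegree = δ) : IsRatD A B δ := by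
  refine ⟨h, by omega, by omega, ?_⟩
  rcases max_choice A.natDegree B.natDegree with h1 | h1
  · left
    rw [← hδ, h1]
    exact leadingCoeff_ne_zero.2 hA
  · right
    rw [← hδ, h1]
    exact leadingCoeff_ne_zero.2 hB

/-- A long orbit of places gives a long orbit of values. -/
theorem orbit_inj {α : Type} (c : ℕ → α) (h : α → α) (hc : ∀ l, c (l + 1) = h (c l))
    (N : ℕ) (hN : N < (Set.range c).encard) : ∀ i j, i ≤ N → j ≤ N → c i = c j → i = j := by
  have key : ∀ i j, i < j → j ≤ N → c i ≠ c j := by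
    intro i j hij hjN heq
    have h1 : ∀ l, ∃ m < j, c l = c m := by
      intro l
      induction l with
      | zero => exact ⟨0, by omega, rfl⟩
      | succ l ih =>
        obtain ⟨m, hm, hlm⟩ := ih
        rcases Nat.lt_or_ge (m + 1) j with h2 | h2
        · exact ⟨m + 1, h2, by rw [hc, hc, hlm]⟩
        · have h3 : m + 1 = j := by omega
          exact ⟨i, hij, by rw [hc, hlm, ← hc, h3, heq]⟩
    have h2 : Set.range c ⊆ c '' (Finset.range j : Set ℕ) := by
      rintro _ ⟨l, rfl⟩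
      obtain ⟨m, hm, hlm⟩ := h1 l
      exact ⟨m, by simpa using hm, hlm.symm⟩
    have h3 := (Set.encard_le_encard h2).trans (Set.encard_image_le _ _)
    rw [Set.encard_coe_eq_coe_finsetCard, Finset.card_range] at h3
    have h4 : (N : ℕ∞) < (j : ℕ∞) := lt_of_lt_of_le hN h3
    have h5 : N < j := by exact_mod_cast h4
    omega
  intro i j hi hj hij
  rcases Nat.lt_trichotomy i j with h1 | h1 | h1
  · exact absurd hij (key i j h1 hj)
  · exact h1
  · exact absurd hij.symm (key j i h1 hi)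

theorem partC [IsAlgClosed E] (hM : IsFunctionField E M) (Ψ : M →ₐ[E] M) (y₀ : M)
    (hy₀ : Transcendental E y₀) (hΨ : Ψ y₀ ∈ E⟮y₀⟯) (w : ℕ → Place E M)
    (hw : ∀ l h, (w (l + 1)).val h < 1 ↔ (w l).val (Ψ h) < 1) (hfin : (Set.range w).Finite)
    (N₁ N₂ : ℕ) (hinj : ∀ i j, i ≤ N₁ → j ≤ N₁ → w i = w j → i = j)
    (hN₁ : 2 * Module.finrank E⟮y₀⟯ M ≤ N₁) (hN₂ : N₂ * Module.finrank E⟮y₀⟯ M ≤ N₁)
    (Γ : Set (E ≃+* E)) (hinf : {e : E | ∀ g ∈ Γ, g e = e}.Infinite) (ext : (E ≃+* E) → (M ≃+* M))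
    (h1 : ∀ g ∈ Γ, ∀ c, ext g (algebraMap E M c) = algebraMap E M (g c))
    (h2 : ∀ g ∈ Γ, ∀ l, ∀ h, (w l).val (ext g h) = (w l).val h)
    (h3 : ∀ g ∈ Γ, ∃ A : Matrix (Fin 2) (Fin 2) E, A.det ≠ 0 ∧ ext g y₀ = mob A y₀)
    (h4 : ∀ g ∈ Γ, ∀ x, ext g (Ψ x) = Ψ (ext g x)) :
    ∃ (y : M) (A B : E[X]) (c : ℕ → E), Transcendental E y ∧ E⟮y⟯ = E⟮y₀⟯ ∧
      IsRatD A B (Module.finrank Ψ.fieldRange M) ∧ Ψ y * aeval y B = aeval y A ∧
      (∀ g ∈ Γ, A.map (g : E →+* E) = A ∧ B.map (g : E →+* E) = B ∧ ∀ l, g (c l) = c l) ∧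
      (∀ l, B.eval (c l) ≠ 0 ∧ c (l + 1) = A.eval (c l) / B.eval (c l)) ∧
      (Set.range c).Finite ∧ ∀ i j, i ≤ N₂ → j ≤ N₂ → c i = c j → i = j := by
  classical
  have hfd : 0 < Module.finrank E⟮y₀⟯ M := by
    haveI := hM.finiteDimensional y₀ hy₀
    exact Module.finrank_pos
  have hcardw : N₁ + 1 ≤ (Set.range w).ncard := by
    have hsub : w '' (Finset.range (N₁ + 1) : Set ℕ) ⊆ Set.range w := Set.image_subset_range _ _
    have hi : Set.InjOn w (Finset.range (N₁ + 1) : Set ℕ) := by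
      intro i hi j hj hij
      simp only [Finset.coe_range, Set.mem_Iio] at hi hj
      exact hinj i j (by omega) (by omega) hij
    have := Set.ncard_le_ncard hsub hfin
    rwa [hi.ncard_image, Set.ncard_coe_finset, Finset.card_range] at this
  obtain ⟨y, hy, hadj, hfix, hval⟩ := exists_coordinate hM y₀ hy₀ (Set.range w) hfin (by omega) Γ
    hinf ext h1 (by rintro g hg _ ⟨l, rfl⟩ h; exact h2 g hg l h) h3
  have hval' : ∀ l, ∃ c : E, HasVal (w l) y c ∧ ∀ g ∈ Γ, g c = c := fun l => hval (w l) ⟨l, rfl⟩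
  choose c hc hgc using hval'
  have hΨy : Ψ y ∈ E⟮y⟯ := by
    have h5 : (E⟮y₀⟯).map Ψ ≤ E⟮y₀⟯ := by
      rw [IntermediateField.adjoin_map, Set.image_singleton, adjoin_simple_le_iff]
      exact hΨ
    rw [hadj]
    apply h5
    exact ⟨y, by
      have := mem_adjoin_simple_self E y
      rw [hadj] at this
      exact this, rfl⟩
  obtain ⟨A, B, hAB, hBm, hABy⟩ := exists_ratio hy hΨy
  have hΨtr : Transcendental E (Ψ y) := by
    intro halg
    exact hy ((isAlgebraic_algHom_iff Ψ Ψ.injective).1 halg)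
  have hA0 : A ≠ 0 := by
    rintro rfl
    rw [map_zero] at hABy
    rcases mul_eq_zero.1 hABy with h5 | h5
    · rw [h5] at hΨtr
      exact hΨtr isAlgebraic_zero
    · exact aeval_ne_zero hy hBm.ne_zero h5
  have hδ : max A.natDegree B.natDegree = Module.finrank Ψ.fieldRange M := by
    rw [← relfinrank_ratio hy hAB hBm.ne_zero, ← hABy,
      mul_div_cancel_right₀ _ (aeval_ne_zero hy hBm.ne_zero)]
    refine relfinrank_endo Ψ y hΨy ?_
    rw [hadj]
    exact hfd.ne'
  have hstep : ∀ l, B.eval (c l) ≠ 0 ∧ c (l + 1) = A.eval (c l) / B.eval (c l) := by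
    intro l
    have h5 : HasVal (w l) (Ψ y) (c (l + 1)) := by
      have := (hw l (y - algebraMap E M (c (l + 1)))).1 (hc (l + 1))
      rwa [map_sub, AlgHom.commutes] at this
    have h6 := h5.mul ((hc l).aeval B)
    rw [hABy] at h6
    have h7 := h6.unique ((hc l).aeval A)
    have h8 : B.eval (c l) ≠ 0 := by
      intro h0
      rw [h0, mul_zero] at h7
      obtain ⟨P, Q, hPQ⟩ := hAB
      have h9 := congrArg (Polynomial.eval (c l)) hPQ
      rw [eval_add, eval_mul, eval_mul, h0, ← h7] at h9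
      simp at h9
    exact ⟨h8, by rw [eq_div_iff h8, h7]⟩
  have hcfin : (Set.range c).Finite := by
    have h5 : Set.range c ⊆ ⋃ v ∈ Set.range w, {e | HasVal v y e} := by
      rintro _ ⟨l, rfl⟩
      exact Set.mem_biUnion ⟨l, rfl⟩ (hc l)
    refine Set.Finite.subset (hfin.biUnion fun v _ => Set.Subsingleton.finite ?_) h5
    intro a ha b hb
    exact HasVal.unique ha hb
  refine ⟨y, A, B, c, hy, hadj, isRatD_max hAB hA0 hBm.ne_zero hδ, hABy, ?_, hstep, hcfin, ?_⟩
  · intro g hg
    have h5 : ∀ P : E[X], ext g (aeval y P) = aeval y (P.map (g : E →+* E)) := by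
      intro P
      induction P using Polynomial.induction_on' with
      | add p q hp hq => rw [map_add, map_add, hp, hq, Polynomial.map_add, map_add]
      | monomial n a =>
        rw [aeval_monomial, map_mul, map_pow, h1 g hg, hfix g hg, Polynomial.map_monomial,
          aeval_monomial]
        rfl
    have h6 := congrArg (ext g) hABy
    rw [map_mul, h4 g hg, hfix g hg, h5, h5] at h6
    have hBm' : (B.map (g : E →+* E)).Monic := hBm.map _
    have hAB' : IsCoprime (A.map (g : E →+* E)) (B.map (g : E →+* E)) :=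
      hAB.map (Polynomial.mapRingHom (g : E →+* E))
    obtain ⟨e1, e2⟩ := ratio_unique hy hAB hAB' hBm hBm' (by
      rw [← hABy, ← h6]; ring)
    exact ⟨e1.symm, e2.symm, fun l => hgc l g hg⟩
  · refine orbit_inj c (fun e => A.eval e / B.eval e) (fun l => (hstep l).2) N₂ ?_
    -- the number of values
    rw [← hcfin.cast_ncard_eq]
    have h5 : hfin.toFinset ⊆ hcfin.toFinset.biUnion fun e => (ncard_hasVal_le hM y hy e).1.toFinset := by
      intro v hv
      rw [Set.Finite.mem_toFinset] at hv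
      obtain ⟨l, rfl⟩ := hv
      rw [Finset.mem_biUnion]
      refine ⟨c l, ?_, ?_⟩
      · rw [Set.Finite.mem_toFinset]; exact ⟨l, rfl⟩
      · rw [Set.Finite.mem_toFinset]; exact hc l
    have h6 := Finset.card_le_card h5
    have h7 : (hcfin.toFinset.biUnion fun e => (ncard_hasVal_le hM y hy e).1.toFinset).card ≤
        hcfin.toFinset.card * Module.finrank E⟮y₀⟯ M := by
      refine Finset.card_biUnion_le_card_mul _ _ _ fun e _ => ?_
      rw [← Set.ncard_eq_toFinset_card _ (ncard_hasVal_le hM y hy e).1, ← hadj]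
      exact (ncard_hasVal_le hM y hy e).2
    rw [← Set.ncard_eq_toFinset_card _ hfin] at h6
    rw [← Set.ncard_eq_toFinset_card _ hcfin] at h7
    have h8 : N₂ < (Set.range c).ncard := by
      by_contra hcon
      rw [not_lt] at hcon
      have := Nat.mul_le_mul_right (Module.finrank E⟮y₀⟯ M) hcon
      omega
    exact_mod_cast h8

end partC

end Pool.Agent.Helper38.DT
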