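import Pool.Agent.Helper45.S4Inert
import Pool.Agent.Helper38.DT.Defs

/-!
# A proper intermediate field of `L / k(t)` as a function field over `k(t)`
-/

set_option autoImplicit false
set_option linter.style.haveILetI false

namespace Pool.Agent.Helper38.DT

open Polynomial IntermediateField Pool.Agent.Helper16 Pool.Agent.Helper45.S4

section subf

variable {k L : Type} [Field k] [Field L] [Algebra k L]

theorem mem_of_le (t : L) (F : IntermediateField k L) (hF : k⟮t⟯ ≤ F) : t ∈ F :=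
  hF (mem_adjoin_simple_self k t)

theorem map_adjoin_sub (t : L) (F : IntermediateField k L) (hF : k⟮t⟯ ≤ F) :
    (k⟮(⟨t, mem_of_le t F hF⟩ : F)⟯).map F.val = k⟮t⟯ := by
  rw [IntermediateField.adjoin_map, Set.image_singleton]
  rfl

theorem transcendental_sub (t : L) (ht : Transcendental k t) (F : IntermediateField k L)
    (hF : k⟮t⟯ ≤ F) : Transcendental k (⟨t, mem_of_le t F hF⟩ : F) := by
  intro halg
  apply ht
  exact (isAlgebraic_iff (S := F)).1 halg

/-- the isomorphism between the two versions of `k(t)` -/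
noncomputable def adjSub (t : L) (F : IntermediateField k L) (hF : k⟮t⟯ ≤ F) :
    k⟮(⟨t, mem_of_le t F hF⟩ : F)⟯ ≃ₐ[k] k⟮t⟯ :=
  (equivMap k⟮(⟨t, mem_of_le t F hF⟩ : F)⟯ F.val).trans (equivOfEq (map_adjoin_sub t F hF))

theorem adjSub_coe (t : L) (F : IntermediateField k L) (hF : k⟮t⟯ ≤ F)
    (a : k⟮(⟨t, mem_of_le t F hF⟩ : F)⟯) : ((adjSub t F hF a : k⟮t⟯) : L) = ((a : F) : L) := rfl

theorem finrank_sub (t : L) (F : IntermediateField k L) (hF : k⟮t⟯ ≤ F) :
    Module.finrank k⟮(⟨t, mem_of_le t F hF⟩ : F)⟯ F * Module.finrank F L =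
      Module.finrank k⟮t⟯ L := by
  rw [← relfinrank_mul_finrank_top hF]
  congr 1
  have h1 : (⊤ : IntermediateField k F).map F.val = F := by
    rw [← AlgHom.fieldRange_eq_map]
    exact fieldRange_val F
  have h2 := relfinrank_map_map (k⟮(⟨t, mem_of_le t F hF⟩ : F)⟯) ⊤ F.val
  rw [h1, map_adjoin_sub t F hF, relfinrank_top_right] at h2
  exact h2.symm

theorem isFunctionField_sub (hL : IsFunctionField k L) (t : L) (ht : Transcendental k t)
    (F : IntermediateField k L) (hF : k⟮t⟯ ≤ F) : IsFunctionField k F := by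
  haveI := finiteDimensional_adjoin hL t ht
  set t₀ : F := ⟨t, mem_of_le t F hF⟩ with ht₀
  have h1 : Module.finrank k⟮t⟯ L ≠ 0 := (Module.finrank_pos (R := k⟮t⟯) (M := L)).ne'
  have h2 := finrank_sub t F hF
  have h3 : Module.finrank k⟮t₀⟯ F ≠ 0 := by
    intro h0
    rw [← ht₀, h0, zero_mul] at h2
    exact h1 h2.symm
  haveI : FiniteDimensional k⟮t₀⟯ F := FiniteDimensional.of_finrank_pos (Nat.pos_of_ne_zero h3)
  have h4 : IsFunctionField k k⟮t⟯ := isFunctionField_adjoin hL t ht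
  have h5 : IsFunctionField k k⟮t₀⟯ := by
    obtain ⟨h6, h7⟩ := h4
    exact ⟨(Algebra.EssFiniteType.iff_of_algEquiv (adjSub t F hF)).2 h6,
      (adjSub t F hF).trdeg_eq.trans h7⟩
  exact isFunctionField_ext h5

theorem isSeparable_sub (t : L) [Algebra.IsSeparable k⟮t⟯ L] (F : IntermediateField k L)
    (hF : k⟮t⟯ ≤ F) : Algebra.IsSeparable k⟮(⟨t, mem_of_le t F hF⟩ : F)⟯ F := by
  haveI : Algebra.IsSeparable k⟮t⟯ (extendScalars hF) :=
    Algebra.isSeparable_tower_bot_of_isSeparable k⟮t⟯ (extendScalars hF) L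
  let e₂ : (extendScalars hF) ≃+* F := RingEquiv.refl _
  exact Algebra.IsSeparable.of_equiv_equiv (A₁ := k⟮t⟯) (B₁ := extendScalars hF)
    (adjSub t F hF).symm.toRingEquiv e₂ (by
      ext a
      obtain ⟨b, rfl⟩ := (adjSub t F hF).surjective a
      change (((adjSub t F hF).symm (adjSub t F hF b) : F) : L) = _
      rw [AlgEquiv.symm_apply_apply]
      rfl)

end subf

end Pool.Agent.Helper38.DT
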