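import Pool.Agent.Helper45.S4Der
import Pool.Agent.Helper38.DT.Defs

/-!
# Values of functions at places
-/

set_option autoImplicit false
set_option linter.style.haveILetI false

namespace Pool.Agent.Helper38.DT

open Polynomial IntermediateField Pool.Agent.Helper16 Pool.Agent.Helper45.FF
  Pool.Agent.Helper45.S4

section val

variable {E M : Type} [Field E] [Field M] [Algebra E M]

/-- the function `y` has the value `c` at the place `w` -/
def HasVal (w : Place E M) (y : M) (c : E) : Prop := w.val (y - algebraMap E M c) < 1

variable {w : Place E M} {u v : M} {a b c : E}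

theorem HasVal.unique (h : HasVal w u a) (h' : HasVal w u b) : a = b := res_unique w u a b h h'

theorem val_const_le (w : Place E M) (c : E) : w.val (algebraMap E M c) ≤ 1 := by
  by_cases hc : c = 0
  · simp [hc]
  · exact (w.triv c hc).le

theorem HasVal.le (h : HasVal w u a) : w.val u ≤ 1 := by
  have h1 : u = (u - algebraMap E M a) + algebraMap E M a := by ring
  rw [h1]
  exact (w.val.map_add _ _).trans (max_le (le_of_lt h) (val_const_le w a))

theorem hasVal_const (w : Place E M) (c : E) : HasVal w (algebraMap E M c) c := by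
  unfold HasVal
  rw [sub_self, map_zero]
  exact zero_lt_one

theorem HasVal.add (h : HasVal w u a) (h' : HasVal w v b) : HasVal w (u + v) (a + b) := by
  unfold HasVal at *
  have h1 : u + v - algebraMap E M (a + b) = (u - algebraMap E M a) + (v - algebraMap E M b) := by
    rw [map_add]; ring
  rw [h1]
  exact lt_of_le_of_lt (w.val.map_add _ _) (max_lt h h')

theorem HasVal.mul (h : HasVal w u a) (h' : HasVal w v b) : HasVal w (u * v) (a * b) := by
  have hv := h'.le
  unfold HasVal at *
  have h1 : u * v - algebraMap E M (a * b) = (u - algebraMap E M a) * v +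
      algebraMap E M a * (v - algebraMap E M b) := by
    rw [map_mul]; ring
  rw [h1]
  refine lt_of_le_of_lt (w.val.map_add _ _) (max_lt ?_ ?_)
  · rw [map_mul]
    exact lt_of_le_of_lt (mul_le_of_le_one_right' hv) h
  · rw [map_mul]
    exact lt_of_le_of_lt (mul_le_of_le_one_left' (val_const_le w a)) h'

theorem HasVal.neg (h : HasVal w u a) : HasVal w (-u) (-a) := by
  unfold HasVal at *
  have h1 : -u - algebraMap E M (-a) = -(u - algebraMap E M a) := by
    rw [map_neg]; ring
  rw [h1, Valuation.map_neg]
  exact h

theorem HasVal.sub (h : HasVal w u a) (h' : HasVal w v b) : HasVal w (u - v) (a - b) := by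
  rw [sub_eq_add_neg, sub_eq_add_neg]
  exact h.add h'.neg

theorem HasVal.pow (h : HasVal w u a) (n : ℕ) : HasVal w (u ^ n) (a ^ n) := by
  induction n with
  | zero =>
    rw [pow_zero, pow_zero]
    have := hasVal_const w (1 : E)
    rwa [map_one] at this
  | succ n ih => rw [pow_succ, pow_succ]; exact ih.mul h

theorem HasVal.aeval (h : HasVal w u a) (A : E[X]) : HasVal w (aeval u A) (A.eval a) := by
  induction A using Polynomial.induction_on' with
  | add p q hp hq => rw [map_add, eval_add]; exact hp.add hq
  | monomial n c =>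
    rw [aeval_monomial, eval_monomial]
    exact (hasVal_const w c).mul (h.pow n)

theorem HasVal.val_eq_one (h : HasVal w u a) (ha : a ≠ 0) : w.val u = 1 := by
  refine le_antisymm h.le ?_
  by_contra hcon
  rw [not_le] at hcon
  have h0 : HasVal w u 0 := by
    unfold HasVal
    rw [map_zero, sub_zero]
    exact hcon
  exact ha (h.unique h0)

theorem HasVal.ne_zero (h : HasVal w u a) (ha : a ≠ 0) : u ≠ 0 := by
  rintro rfl
  have := h.val_eq_one ha
  rw [map_zero] at this
  exact zero_ne_one this

theorem HasVal.inv (h : HasVal w u a) (ha : a ≠ 0) : HasVal w u⁻¹ a⁻¹ := by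
  have h1 := h.val_eq_one ha
  have hu := h.ne_zero ha
  have ha' : algebraMap E M a ≠ 0 := by simpa using ha
  unfold HasVal at *
  have h2 : u⁻¹ - algebraMap E M a⁻¹ = -(u - algebraMap E M a) * (u⁻¹ * (algebraMap E M a)⁻¹) := by
    rw [map_inv₀]
    field_simp
    ring
  rw [h2, map_mul, Valuation.map_neg, map_mul, map_inv₀, map_inv₀, h1, w.triv a ha]
  simpa using h

theorem HasVal.div (h : HasVal w u a) (h' : HasVal w v b) (hb : b ≠ 0) : HasVal w (u / v) (a / b) := by
  rw [div_eq_mul_inv, div_eq_mul_inv]
  exact h.mul (h'.inv hb)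

/-- Places at which `y` has a given value. -/
theorem ncard_hasVal_le [IsAlgClosed E] (hM : IsFunctionField E M) (y : M)
    (hy : Transcendental E y) (c : E) :
    {w : Place E M | HasVal w y c}.Finite ∧
      {w : Place E M | HasVal w y c}.ncard ≤ Module.finrank E⟮y⟯ M := by
  have hadj : E⟮y - algebraMap E M c⟯ = E⟮y⟯ := by
    apply le_antisymm
    · rw [adjoin_simple_le_iff]
      exact sub_mem (mem_adjoin_simple_self E y) (IntermediateField.algebraMap_mem _ c)
    · rw [adjoin_simple_le_iff]
      have := add_mem (mem_adjoin_simple_self E (y - algebraMap E M c))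
        (IntermediateField.algebraMap_mem E⟮y - algebraMap E M c⟯ c)
      rwa [sub_add_cancel] at this
  have htr : Transcendental E (y - algebraMap E M c) := by
    intro halg
    apply hy
    have := halg.add (isAlgebraic_algebraMap (A := M) c)
    rwa [sub_add_cancel] at this
  have hz : y - algebraMap E M c ≠ 0 := by
    intro h0
    rw [h0] at htr
    exact htr isAlgebraic_zero
  obtain ⟨S, hS, hsum, -⟩ := hM.zeros (y - algebraMap E M c) htr
  have hset : {w : Place E M | HasVal w y c} = (S : Set (Place E M)) := by
    ext w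
    exact (hS w).symm
  rw [hset]
  refine ⟨S.finite_toSet, ?_⟩
  rw [Set.ncard_coe_finset]
  have h1 : (S.card : ℤ) ≤ ∑ v ∈ S, v.ord (y - algebraMap E M c) * (v.deg : ℤ) := by
    rw [Finset.card_eq_sum_ones, Nat.cast_sum]
    apply Finset.sum_le_sum
    intro v hv
    rw [deg_eq_one hM v, Nat.cast_one, mul_one]
    have := (v.ord_pos_iff hz).2 ((hS v).1 hv)
    omega
  rw [hsum, hadj] at h1
  exact_mod_cast h1

end val

end Pool.Agent.Helper38.DT
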