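import Pool.Agent.Helper38.DT.Main

/-!
# Independence of conjugate orbits, with automorphisms of an algebraic closure
-/

set_option autoImplicit false
set_option linter.style.haveILetI false

namespace Pool.Agent.Helper38.DT

open Polynomial IntermediateField Pool.Agent.Helper16 Pool.Agent.Helper45.FR

/-- independence of conjugate orbits (automorphism form) -/
def IndepE (k : Type) [Field k] (d n : ℕ) : Prop :=
  ∀ m : ℕ, ∃ N : ℕ, ∀ (L : Type) [Field L] [Algebra k L] (t : L), IsFunctionField k L →
    Transcendental k t → Algebra.IsSeparable k⟮t⟯ L → Module.finrank k⟮t⟯ L ≤ n →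
    ∀ F G : L[X], IsCoprime F G → F.natDegree ≤ d → G.natDegree ≤ d →
      (F.coeff d ≠ 0 ∨ G.coeff d ≠ 0) → ∀ x : ℕ → L, RatOrbit F G x N →
      ∀ (E : Type) [Field E] [IsAlgClosed E] [Algebra k E] [Algebra L E] [IsScalarTower k L E]
        [Algebra.IsAlgebraic L E] (σ : E ≃ₐ[k] E), σ (algebraMap L E t) = algebraMap L E t →
      (∃ a : L, σ (algebraMap L E a) ≠ algebraMap L E a) →
      ∀ P : MvPolynomial (Fin 2) E, P ≠ 0 → (∀ i, P.degreeOf i ≤ m) →
        (∀ j ≤ N, MvPolynomial.eval ![algebraMap L E (x j), σ (algebraMap L E (x j))] P = 0) →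
        ConstConj k F G d

theorem indepE_of_indep {k : Type} [Field k] {d n : ℕ} (h : Indep k d n) : IndepE k d n := by
  classical
  intro m
  obtain ⟨N, hN⟩ := h m
  refine ⟨N, ?_⟩
  intro L _ _ t hL ht hsep hfin F G hcop hF hG htop x hx E _ _ _ _ _ _ σ hσt hσ P hP hdeg hrel
  haveI : IsAlgClosure L E := ⟨inferInstance, inferInstance⟩
  let e : E ≃ₐ[L] AlgebraicClosure L := IsAlgClosure.equiv L E (AlgebraicClosure L)
  have hek : ∀ c : k, e (algebraMap k E c) = algebraMap k (AlgebraicClosure L) c := by
    intro c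
    rw [IsScalarTower.algebraMap_apply k L E, e.commutes, ← IsScalarTower.algebraMap_apply]
  let f : L →+* AlgebraicClosure L :=
    (e : E →+* AlgebraicClosure L).comp ((σ : E →+* E).comp (algebraMap L E))
  have hfdef : ∀ a, f a = e (σ (algebraMap L E a)) := fun a => rfl
  -- `f` is the identity on `k(t)`
  have hfix : ∀ a ∈ k⟮t⟯, f a = algebraMap L (AlgebraicClosure L) a := by
    intro a ha
    induction ha using IntermediateField.adjoin_induction with
    | mem b hb =>
      rw [Set.mem_singleton_iff] at hb
      subst hb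
      rw [hfdef, hσt, e.commutes]
    | algebraMap c =>
      rw [hfdef, ← IsScalarTower.algebraMap_apply k L E, σ.commutes, hek,
        ← IsScalarTower.algebraMap_apply]
    | add b c _ _ hb hc => rw [map_add, map_add, hb, hc]
    | inv b _ hb => rw [map_inv₀, map_inv₀, hb]
    | mul b c _ _ hb hc => rw [map_mul, map_mul, hb, hc]
  let τ : L →ₐ[k⟮t⟯] AlgebraicClosure L :=
    { f with
      commutes' := fun a => by
        change f (a : L) = _
        rw [hfix a a.2]
        rfl }
  have hτ : ∀ a, τ a = e (σ (algebraMap L E a)) := fun a => rfl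
  refine hN L t hL ht hsep hfin F G hcop hF hG htop x hx τ ?_
    (MvPolynomial.map (e : E →+* AlgebraicClosure L) P) ?_ ?_ ?_
  · obtain ⟨a, ha⟩ := hσ
    refine ⟨a, ?_⟩
    rw [hτ, ← e.commutes a]
    exact fun h => ha (e.injective h)
  · intro h0
    apply hP
    apply MvPolynomial.map_injective (e : E →+* AlgebraicClosure L) e.injective
    rw [h0, map_zero]
  · intro i
    refine le_trans ?_ (hdeg i)
    rw [MvPolynomial.degreeOf_def, MvPolynomial.degreeOf_def]
    exact Multiset.count_le_of_le i MvPolynomial.degrees_map_le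
  · intro j hj
    have h1 := congrArg e (hrel j hj)
    rw [map_zero] at h1
    rw [← h1, MvPolynomial.eval_map, hτ]
    have h2 := MvPolynomial.eval₂_comp_left (e : E →+* AlgebraicClosure L) (RingHom.id E)
      ![algebraMap L E (x j), σ (algebraMap L E (x j))] P
    rw [RingHom.comp_id] at h2
    change _ = (e : E →+* AlgebraicClosure L) (MvPolynomial.eval₂ (RingHom.id E)
      ![algebraMap L E (x j), σ (algebraMap L E (x j))] P)
    rw [h2]
    congr 1
    funext i
    fin_cases i
    · change algebraMap L (AlgebraicClosure L) (x j) = e (algebraMap L E (x j))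
      rw [e.commutes]
    · rfl

end Pool.Agent.Helper38.DT
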